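import Pool.Agent.H382.RP.Bx

/-!
# The laws: assembly
-/

set_option autoImplicit false

open MeasureTheory Filter Topology Set
open scoped ENNReal RealInnerProductSpace
open Pool.Agent.H469R2.NK (e norm_e e_add conj_e e_zero)
open Pool.Agent.H383.Gen (U Bd)
open Pool.Agent.Y969.TM
open Pool.Agent.R306.GP
open Pool.Agent.NH20.NC

namespace Pool.Agent.H382.RP

noncomputable section

variable {r k : ℕ} {E : ℝ → ℝ} {af : ℕ → ℝ} {φ : ℝ} {W : (Fin r → ℕ →₀ ℤ) → Prop} {ρ : ℕ → Measure (Fin r → ℝ)}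

instance : Inhabited (ProbabilityMeasure (Fin r → ℝ)) := ⟨⟨Measure.dirac 0, inferInstance⟩⟩

open Classical in
/-- the limit law which belongs to a set of frequency vectors -/
def lawW (E : ℝ → ℝ) (af : ℕ → ℝ) (φ : ℝ) (W : (Fin r → ℕ →₀ ℤ) → Prop) : ProbabilityMeasure (Fin r → ℝ) :=
  if h : Measurable E ∧ ∃ ρ, Sys E af φ W ρ then (law_exists h.1 h.2.choose_spec).choose else default

theorem lawW_spec (hE : Measurable E) (h : Sys E af φ W ρ) {g : (Fin r → ℝ) → ℝ} (hg : Continuous g)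
    (hb : ∃ B, ∀ x, |g x| ≤ B) :
    Tendsto (fun n => ∫ R, g (fun i => E (R i)) ∂(ρ n)) atTop
      (𝓝 (∫ x, g x ∂(lawW E af φ W : Measure (Fin r → ℝ)))) := by
  have h' : Measurable E ∧ ∃ ρ, Sys E af φ W ρ := ⟨hE, ρ, h⟩
  unfold lawW
  rw [dif_pos h']
  exact (law_exists h'.1 h'.2.choose_spec).choose_spec ρ h g hg hb

/-- probability measures with the same integrals -/
lemma prob_ext {Ω : Type*} [MeasurableSpace Ω] [TopologicalSpace Ω] [HasOuterApproxClosed Ω] [BorelSpace Ω]
    {μ ν : Measure Ω} [IsProbabilityMeasure μ] [IsProbabilityMeasure ν]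
    (h : ∀ g : Ω → ℝ, Continuous g → (∃ B, ∀ x, |g x| ≤ B) → ∫ x, g x ∂μ = ∫ x, g x ∂ν) : μ = ν := by
  apply ext_of_forall_integral_eq_of_IsFiniteMeasure
  intro f
  exact h f f.continuous ⟨‖f‖, fun x => by
    have := f.norm_coe_le_norm x
    rwa [Real.norm_eq_abs] at this⟩

/-- the law along sequences of points -/
lemma em_spec (hE : Measurable E) {X : ℕ → Fin r → ℝ} (h : Sys E af φ W (R306.GP.em X)) {g : (Fin r → ℝ) → ℝ}
    (hg : Continuous g) (hb : ∃ B, ∀ x, |g x| ≤ B) :
    Tendsto (fun N : ℕ => (∑ n ∈ Finset.range N, g (fun i => E (X n i))) / (N:ℝ)) atTop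
      (𝓝 (∫ x, g x ∂(lawW E af φ W : Measure (Fin r → ℝ)))) := by
  have h1 := lawW_spec hE h hg hb
  rw [← tendsto_add_atTop_iff_nat 1]
  refine h1.congr fun N => ?_
  rw [em_integral, smul_eq_mul, div_eq_inv_mul]

/-- choice of generic exponents -/
lemma exists_box (D : Fin k → ℕ) {P : (Fin k → ℝ) → Prop} (hP : ∀ᵐ c, P c) :
    ∃ c, P c ∧ ∀ j, (D j : ℝ) - 1 < c j ∧ c j < D j := by
  set S : Set (Fin k → ℝ) := Set.pi univ fun j => Ioo ((D j : ℝ) - 1) (D j) with hS
  have hSm : MeasurableSet S := MeasurableSet.univ_pi fun j => measurableSet_Ioo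
  have hvol : volume S = 1 := by
    rw [hS, Real.volume_pi_Ioo]
    simp
  have hne : (ae (volume.restrict S)).NeBot := by
    rw [ae_neBot, Ne, Measure.restrict_eq_zero, hvol]
    exact one_ne_zero
  obtain ⟨c, hc1, hc2⟩ := ((ae_restrict_of_ae hP).and (ae_restrict_mem hSm)).exists
  exact ⟨c, hc1, fun j => hc2 j (mem_univ j)⟩

lemma Sx_nat : Sx (fun n : ℕ => (n:ℝ) + 3) 1 1 3 := by
  refine ⟨one_pos, fun n => by push_cast; linarith, fun n => ?_, zero_le_one, le_rfl, fun n => ?_⟩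
  · have : (0:ℝ) ≤ n := Nat.cast_nonneg n
    linarith
  · have : (0:ℝ) ≤ n := Nat.cast_nonneg n
    rw [Real.rpow_one]
    linarith

lemma ok_box {h : Fin r → ℝ} {s : Fin r → Fin k} {D : Fin k → ℕ} {c : Fin k → ℝ}
    (hc : ∀ j, (D j : ℝ) - 1 < c j ∧ c j < D j) : Ok 1 h s D c :=
  fun j => ⟨by linarith [(hc j).1], Or.inl (hc j).2⟩

/-- the marginals -/
theorem marginal {μ : ProbabilityMeasure ℝ} (hX : Ctx E af φ)
    (hμ : ∀ t : ℝ, Tendsto (fun K => mK af φ K t) atTop (𝓝 (charFun (μ : Measure ℝ) t)))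
    (h : Fin r → ℝ) (s : Fin r → Fin k) (D : Fin k → ℕ) (hD : ∀ j, 1 ≤ D j) (i : Fin r) :
    (lawW E af φ (Wp h s D) : Measure (Fin r → ℝ)).map (fun x => x i) = (μ : Measure ℝ) := by
  obtain ⟨c, ⟨h1, h2⟩, hc⟩ := exists_box D ((sys_pw hX Sx_nat h s D hD).and
    (law_k hX hμ Sx_nat (fun _ : Fin 1 => h i) (fun _ : Fin 1 => s i) (fun _ _ _ _ => Subsingleton.elim _ _)))
  obtain ⟨h3, -⟩ := h1 (ok_box hc)
  have h4 := h2 (fun _ => by
    have h5 := (hc (s i)).1
    have h6 : (1:ℝ) ≤ D (s i) := by exact_mod_cast hD (s i)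
    simp only [Finset.filter_true, Finset.card_univ, Fintype.card_fin, Nat.cast_one]
    linarith)
  have : IsProbabilityMeasure ((lawW E af φ (Wp h s D) : Measure (Fin r → ℝ)).map (fun x => x i)) :=
    Measure.isProbabilityMeasure_map (measurable_pi_apply i).aemeasurable
  apply prob_ext
  intro g hg hb
  rw [integral_map (measurable_pi_apply i).aemeasurable hg.aestronglyMeasurable]
  obtain ⟨B, hB⟩ := hb
  have k1 := em_spec hX.meas h3 (g := fun x => g (x i)) (by fun_prop) ⟨B, fun x => hB _⟩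
  have hB0 : 0 ≤ B := (abs_nonneg _).trans (hB 0)
  have k2 := (h4 (fun x => g (x 0)) (by fun_prop) ⟨B, fun x => by
    have h7 := hB (x 0)
    nlinarith [mul_nonneg hB0 (sq_nonneg ‖x‖)]⟩).2
  have e5 : ∫ x, g (x 0) ∂(Measure.pi fun _ : Fin 1 => (μ : Measure ℝ)) = ∫ x, g x ∂(μ : Measure ℝ) := by
    have h9 := (measurePreserving_eval (fun _ : Fin 1 => (μ : Measure ℝ)) 0)
    have h10 := integral_map (f := g) (μ := Measure.pi fun _ : Fin 1 => (μ : Measure ℝ))
      h9.measurable.aemeasurable hg.aestronglyMeasurable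
    rw [h9.map_eq] at h10
    exact h10.symm
  rw [e5] at k2
  exact tendsto_nhds_unique k1 k2

/-- the trivial set of frequency vectors -/
def W0 (a : Fin r → ℕ →₀ ℤ) : Prop := ∀ i, frq (a i) = 0

/-- without relations the law is a product -/
theorem law_prod {μ : ProbabilityMeasure ℝ} (hX : Ctx E af φ)
    (hμ : ∀ t : ℝ, Tendsto (fun K => mK af φ K t) atTop (𝓝 (charFun (μ : Measure ℝ) t))) :
    (lawW E af φ (W0 : (Fin r → ℕ →₀ ℤ) → Prop) : Measure (Fin r → ℝ)) = Measure.pi fun _ : Fin r => (μ : Measure ℝ) := by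
  set h : Fin r → ℝ := fun i => ((i : ℕ) : ℝ) with hh
  set s : Fin r → Fin 1 := fun _ => 0 with hs
  set D : Fin 1 → ℕ := fun _ => r + 2 with hD
  have hinj : ∀ i i' : Fin r, h i = h i' → i = i' := by
    intro i i' hii
    simp only [hh] at hii
    exact Fin.ext (by exact_mod_cast hii)
  have hW : (Wp h s D : (Fin r → ℕ →₀ ℤ) → Prop) = W0 := by
    funext a
    apply propext
    constructor
    · intro ha i
      refine mom_zero (Finset.univ.filter fun i => s i = 0) h (fun i _ i' _ he => hinj i i' he) (fun i => frq (a i)) ?_ i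
        (by simp [hs])
      intro l hl
      refine ha 0 l (hl.trans_le ?_)
      have := Finset.card_filter_le (Finset.univ : Finset (Fin r)) (fun i => s i = 0)
      rw [Finset.card_univ, Fintype.card_fin] at this
      simp only [hD]
      omega
    · intro ha j l _
      apply Finset.sum_eq_zero
      intro i _
      rw [ha i, zero_mul]
  obtain ⟨c, ⟨h1, h2⟩, hc⟩ := exists_box D ((sys_pw hX Sx_nat h s D (fun _ => by simp only [hD]; omega)).and
    (law_k hX hμ Sx_nat h s (fun i i' _ he => hinj i i' he)))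
  obtain ⟨h3, -⟩ := h1 (ok_box hc)
  rw [hW] at h3
  have h4 := h2 (fun i => by
    have h5 := (hc (s i)).1
    have h6 := Finset.card_filter_le (Finset.univ : Finset (Fin r)) (fun i' => s i' = s i)
    rw [Finset.card_univ, Fintype.card_fin] at h6
    have h7 : ((Finset.univ.filter fun i' => s i' = s i).card : ℝ) ≤ r := by exact_mod_cast h6
    simp only [hD] at h5
    push_cast at h5
    linarith)
  apply prob_ext
  intro g hg hb
  obtain ⟨B, hB⟩ := hb
  have k1 := em_spec hX.meas h3 (g := g) hg ⟨B, hB⟩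
  have hB0 : 0 ≤ B := (abs_nonneg _).trans (hB 0)
  have k2 := (h4 g hg ⟨B, fun x => by
    have h7 := hB x
    nlinarith [mul_nonneg hB0 (sq_nonneg ‖x‖)]⟩).2
  exact tendsto_nhds_unique k1 k2

/-- affine changes of the shifts -/
lemma Wp_affine_le (h : Fin r → ℝ) (s : Fin r → Fin k) (D : Fin k → ℕ) (α β : Fin k → ℝ) {a : Fin r → ℕ →₀ ℤ}
    (ha : Wp h s D a) : Wp (fun i => α (s i) * h i + β (s i)) s D a := by
  intro j l hl
  have e1 : ∀ i ∈ Finset.univ.filter (fun i => s i = j), frq (a i) * (α (s i) * h i + β (s i)) ^ l =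
      ∑ m ∈ Finset.range (l + 1), (α j ^ m * β j ^ (l - m) * (l.choose m : ℝ)) * (frq (a i) * h i ^ m) := by
    intro i hi
    rw [(Finset.mem_filter.mp hi).2, add_pow, Finset.mul_sum]
    apply Finset.sum_congr rfl
    intro m _
    rw [mul_pow]
    ring
  rw [Finset.sum_congr rfl e1, Finset.sum_comm]
  apply Finset.sum_eq_zero
  intro m hm
  rw [← Finset.mul_sum, ha j m (by have := Finset.mem_range.mp hm; omega), mul_zero]

lemma Wp_affine (h : Fin r → ℝ) (s : Fin r → Fin k) (D : Fin k → ℕ) (α β : Fin k → ℝ) (hα : ∀ j, α j ≠ 0) :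
    Wp (fun i => α (s i) * h i + β (s i)) s D = Wp h s D := by
  funext a
  apply propext
  refine ⟨fun ha => ?_, fun ha => Wp_affine_le h s D α β ha⟩
  have h1 := Wp_affine_le (fun i => α (s i) * h i + β (s i)) s D (fun j => (α j)⁻¹) (fun j => -(α j)⁻¹ * β j) ha
  have e1 : (fun i => (α (s i))⁻¹ * (α (s i) * h i + β (s i)) + -(α (s i))⁻¹ * β (s i)) = h := by
    funext i
    have := hα (s i)
    field_simp
    ring
  rw [e1] at h1
  exact h1

open Classical in
/-- joint frequencies -/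
theorem freq_law {X : ℕ → Fin r → ℝ} {ν : Measure (Fin r → ℝ)} [IsProbabilityMeasure ν]
    (hat : ∀ (i : Fin r) (x : ℝ), ν {v | v i = x} = 0)
    (hlaw : ∀ g : (Fin r → ℝ) → ℝ, Continuous g → (∃ B, ∀ x, |g x| ≤ B) →
      Tendsto (fun N : ℕ => (∑ n ∈ Finset.range N, g (X n)) / (N:ℝ)) atTop (𝓝 (∫ x, g x ∂ν))) (u : Fin r → ℝ) :
    Tendsto (fun N : ℕ => (((Finset.range N).filter fun n => ∀ j, X n j ≤ u j).card : ℝ) / N) atTop
      (𝓝 (ν.real {v | ∀ j, v j ≤ u j})) := by
  set PN : ℕ → ProbabilityMeasure (Fin r → ℝ) := fun N => ⟨R306.GP.em X N, inferInstance⟩ with hPN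
  set P0 : ProbabilityMeasure (Fin r → ℝ) := ⟨ν, inferInstance⟩ with hP0
  have hconv : Tendsto PN atTop (𝓝 P0) := by
    rw [ProbabilityMeasure.tendsto_iff_forall_integral_tendsto]
    intro g
    have h1 := (tendsto_add_atTop_iff_nat 1).mpr (hlaw g g.continuous ⟨‖g‖, fun x => by
      have := g.norm_coe_le_norm x
      rwa [Real.norm_eq_abs] at this⟩)
    refine h1.congr fun N => ?_
    change _ = ∫ x, g x ∂(R306.GP.em X N)
    rw [em_integral, smul_eq_mul, div_eq_inv_mul]
  set S : Set (Fin r → ℝ) := {x | ∀ j, x j ≤ u j} with hS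
  have hSpi : S = Set.pi univ fun j => Iic (u j) := by
    ext x
    constructor
    · intro h j _
      exact h j
    · intro h j
      exact h j (mem_univ j)
  have hScl : IsClosed S := by
    rw [hSpi]
    exact isClosed_set_pi fun j _ => isClosed_Iic
  have hfr : frontier S ⊆ ⋃ j, {x : Fin r → ℝ | x j = u j} := by
    rw [hScl.frontier_eq]
    rintro x ⟨hx1, hx2⟩
    by_contra hne
    apply hx2
    rw [mem_interior]
    refine ⟨{x : Fin r → ℝ | ∀ j, x j < u j}, fun z hz j => (hz j).le, ?_, fun j => ?_⟩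
    · have : {x : Fin r → ℝ | ∀ j, x j < u j} = ⋂ j, {x : Fin r → ℝ | x j < u j} := by
        ext z; simp
      rw [this]
      exact isOpen_iInter_of_finite fun j => isOpen_lt (continuous_apply j) continuous_const
    · refine lt_of_le_of_ne (hx1 j) fun heq => hne ?_
      exact mem_iUnion.mpr ⟨j, heq⟩
  have hnull : (P0 : Measure (Fin r → ℝ)) (frontier S) = 0 := by
    refine measure_mono_null hfr ?_
    rw [measure_iUnion_null_iff]
    intro j
    exact hat j (u j)
  have h2 := ProbabilityMeasure.tendsto_measure_of_null_frontier_of_tendsto' hconv hnull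
  have h4 := (ENNReal.tendsto_toReal (measure_ne_top (P0 : Measure (Fin r → ℝ)) S)).comp h2
  rw [← tendsto_add_atTop_iff_nat 1]
  refine h4.congr fun N => ?_
  change (R306.GP.em X N S).toReal = _
  unfold R306.GP.em
  rw [Measure.smul_apply, Measure.finsetSum_apply, smul_eq_mul, ENNReal.toReal_mul, ENNReal.toReal_inv,
    ENNReal.toReal_natCast, div_eq_inv_mul]
  congr 1
  have h5 : ∀ n : ℕ, Measure.dirac (X n) S = if (∀ j, X n j ≤ u j) then 1 else 0 := by
    intro n
    rw [Measure.dirac_apply' _ hScl.measurableSet]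
    by_cases h : ∀ j, X n j ≤ u j
    · rw [if_pos h, indicator_of_mem (by exact h)]; rfl
    · rw [if_neg h, indicator_of_notMem (by exact h)]
  simp only [h5]
  rw [Finset.sum_ite]
  simp

end

end Pool.Agent.H382.RP
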