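import Pool.Agent.H382.RP.Gp

/-!
# Random polynomials form a system
-/

set_option autoImplicit false

open MeasureTheory Filter Topology Set
open scoped ENNReal RealInnerProductSpace
open Pool.Agent.H469R2.NK (e norm_e e_add conj_e e_zero)
open Pool.Agent.H383.Gen (U Bd)
open Pool.Agent.Y969.TM
open Pool.Agent.R306.GP
open Pool.Agent.NH20.NC

namespace Pool.Agent.H382.RP

noncomputable section

variable {r k : ℕ} {E : ℝ → ℝ} {af : ℕ → ℝ} {φ : ℝ}

/-- the uniform distribution on `[T, 2 T]` -/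
def unif (T : ℝ) : Measure ℝ := (ENNReal.ofReal T)⁻¹ • volume.restrict (Icc T (2 * T))

lemma unif_prob {T : ℝ} (hT : 0 < T) : IsProbabilityMeasure (unif T) := by
  constructor
  unfold unif
  rw [Measure.smul_apply, Measure.restrict_apply_univ, Real.volume_Icc, smul_eq_mul]
  rw [show 2 * T - T = T by ring]
  exact ENNReal.inv_mul_cancel (by simpa using hT) ENNReal.ofReal_ne_top

lemma unif_int {T : ℝ} (hT : 0 < T) (g : ℝ → ℂ) : ∫ y, g y ∂(unif T) = (T : ℂ)⁻¹ * ∫ y in T..(2 * T), g y := by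
  unfold unif
  rw [integral_smul_measure, ENNReal.toReal_inv, ENNReal.toReal_ofReal hT.le, Complex.real_smul,
    intervalIntegral.integral_of_le (by linarith), integral_Icc_eq_integral_Ioc]
  push_cast
  rfl

lemma e_int {w : ℝ} (hw : w ≠ 0) (a b : ℝ) : ‖∫ y in a..b, e (y * w)‖ ≤ 1 / |w| := by
  have hpi := Real.pi_pos
  set z : ℂ := ((2 * Real.pi * w : ℝ) : ℂ) * Complex.I with hz
  have hz0 : z ≠ 0 := by
    rw [hz]
    apply mul_ne_zero _ Complex.I_ne_zero
    exact_mod_cast (by positivity : 2 * Real.pi * w ≠ 0)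
  have e1 : ∀ y : ℝ, e (y * w) = Complex.exp (z * y) := by
    intro y
    unfold e
    congr 1
    rw [hz]
    push_cast
    ring
  simp only [e1]
  rw [integral_exp_mul_complex hz0, norm_div]
  have h1 : ‖z‖ = 2 * Real.pi * |w| := by
    rw [hz, norm_mul, Complex.norm_I, mul_one, Complex.norm_real, Real.norm_eq_abs, abs_mul, abs_of_pos (by positivity)]
  have h2 : ‖Complex.exp (z * b) - Complex.exp (z * a)‖ ≤ 2 := by
    rw [← e1, ← e1]
    refine (norm_sub_le _ _).trans ?_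
    rw [norm_e, norm_e]
    norm_num
  have hw0 : 0 < |w| := abs_pos.mpr hw
  rw [h1, div_le_div_iff₀ (by positivity) hw0]
  have h3 : 1 ≤ Real.pi := by linarith [Real.pi_gt_three]
  calc ‖Complex.exp (z * b) - Complex.exp (z * a)‖ * |w| ≤ 2 * |w| := mul_le_mul_of_nonneg_right h2 hw0.le
    _ ≤ 1 * (2 * Real.pi * |w|) := by nlinarith

/-- the characters of the uniform distributions -/
lemma unif_char {T : ℕ → ℝ} (hT0 : ∀ n, 0 < T n) (hT : Tendsto T atTop atTop) {w : ℝ} (hw : w ≠ 0) :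
    Tendsto (fun n => ∫ y, e (y * w) ∂(unif (T n))) atTop (𝓝 0) := by
  have h1 : Tendsto (fun n => (T n)⁻¹ * (1 / |w|)) atTop (𝓝 (0 * (1 / |w|))) :=
    (tendsto_inv_atTop_zero.comp hT).mul_const _
  rw [zero_mul] at h1
  refine squeeze_zero_norm (fun n => ?_) h1
  rw [unif_int (hT0 n), norm_mul, norm_inv, Complex.norm_real, Real.norm_eq_abs, abs_of_pos (hT0 n)]
  exact mul_le_mul_of_nonneg_left (e_int hw _ _) (inv_nonneg.mpr (hT0 n).le)

/-- the values of the random polynomials -/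
def pol (h : Fin r → ℝ) (s : Fin r → Fin k) (D : Fin k → ℕ) (y : (Σ j : Fin k, Fin (D j)) → ℝ) (i : Fin r) : ℝ :=
  ∑ l : Fin (D (s i)), y ⟨s i, l⟩ * h i ^ (l : ℕ)

lemma pol_cont (h : Fin r → ℝ) (s : Fin r → Fin k) (D : Fin k → ℕ) : Continuous (pol h s D) := by
  unfold pol
  fun_prop

/-- random polynomials with coefficients in `[T, 2 T]` -/
def box (D : Fin k → ℕ) (T : ℝ) : Measure ((Σ j : Fin k, Fin (D j)) → ℝ) := Measure.pi fun _ => unif T

lemma box_prob (D : Fin k → ℕ) {T : ℝ} (hT : 0 < T) : IsProbabilityMeasure (box D T) := by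
  have := unif_prob hT
  unfold box
  infer_instance

lemma box_ae (D : Fin k → ℕ) {T : ℝ} (hT : 0 < T) : ∀ᵐ y ∂(box D T), ∀ σ, y σ ∈ Icc T (2 * T) := by
  have := unif_prob hT
  rw [ae_all_iff]
  intro σ
  unfold box
  refine (Measure.tendsto_eval_ae_ae (μ := fun _ : (Σ j : Fin k, Fin (D j)) => unif T) (i := σ)).eventually ?_
  unfold unif
  apply Measure.ae_smul_measure
  exact ae_restrict_mem measurableSet_Icc

open Classical in
/-- the frequencies of the coefficients -/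
lemma pol_phase (h : Fin r → ℝ) (s : Fin r → Fin k) (D : Fin k → ℕ) (a : Fin r → ℕ →₀ ℤ)
    (y : (Σ j : Fin k, Fin (D j)) → ℝ) :
    ∑ i, frq (a i) * pol h s D y i = ∑ σ : (Σ j : Fin k, Fin (D j)), y σ *
      ∑ i ∈ Finset.univ.filter (fun i => s i = σ.1), frq (a i) * h i ^ (σ.2 : ℕ) := by
  unfold pol
  rw [Fintype.sum_sigma, ← Finset.sum_fiberwise Finset.univ s]
  apply Finset.sum_congr rfl
  intro j _
  simp only [Finset.mul_sum]
  symm
  rw [Finset.sum_comm]
  apply Finset.sum_congr rfl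
  intro i hi
  have hi' : s i = j := (Finset.mem_filter.mp hi).2
  subst hi'
  apply Finset.sum_congr rfl
  intro l _
  ring

/-- the characters of the random polynomials -/
lemma box_char (h : Fin r → ℝ) (s : Fin r → Fin k) (D : Fin k → ℕ) {T : ℕ → ℝ} (hT0 : ∀ n, 0 < T n)
    (hT : Tendsto T atTop atTop) (a : Fin r → ℕ →₀ ℤ) [Decidable (Wp h s D a)] :
    Tendsto (fun n => ∫ R, chi a R ∂((box D (T n)).map (pol h s D))) atTop (𝓝 (if Wp h s D a then 1 else 0)) := by
  classical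
  set w : (Σ j : Fin k, Fin (D j)) → ℝ := fun σ =>
    ∑ i ∈ Finset.univ.filter (fun i => s i = σ.1), frq (a i) * h i ^ (σ.2 : ℕ) with hw
  have h1 : ∀ n, ∫ R, chi a R ∂((box D (T n)).map (pol h s D)) = ∏ σ, ∫ y, e (y * w σ) ∂(unif (T n)) := by
    intro n
    have := unif_prob (hT0 n)
    rw [integral_map (pol_cont h s D).measurable.aemeasurable (chi_cont a).aestronglyMeasurable]
    have e1 : ∀ y : (Σ j : Fin k, Fin (D j)) → ℝ, chi a (pol h s D y) = ∏ σ, e (y σ * w σ) := by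
      intro y
      unfold chi
      rw [pol_phase, e_sum]
    simp only [e1]
    unfold box
    exact integral_fintype_prod_eq_prod (𝕜 := ℂ) (fun σ y => e (y * w σ))
  simp only [h1]
  by_cases ha : Wp h s D a
  · rw [if_pos ha]
    have hw0 : ∀ σ, w σ = 0 := fun σ => ha σ.1 σ.2 σ.2.2
    refine tendsto_const_nhds.congr fun n => ?_
    have := unif_prob (hT0 n)
    simp [hw0, e_zero]
  · rw [if_neg ha]
    unfold Wp at ha
    push Not at ha
    obtain ⟨j, l, hl, hne⟩ := ha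
    set σ0 : (Σ j : Fin k, Fin (D j)) := ⟨j, ⟨l, hl⟩⟩ with hσ0
    have hw0 : w σ0 ≠ 0 := hne
    have h2 := (unif_char hT0 hT hw0).norm
    rw [norm_zero] at h2
    refine squeeze_zero_norm (fun n => ?_) h2
    have := unif_prob (hT0 n)
    rw [norm_prod, ← Finset.mul_prod_erase _ _ (Finset.mem_univ σ0)]
    refine mul_le_of_le_one_right (norm_nonneg _) ?_
    apply Finset.prod_le_one (fun _ _ => norm_nonneg _)
    intro σ _
    refine (norm_integral_le_of_norm_le_const (C := 1) (Eventually.of_forall fun y => (norm_e _).le)).trans ?_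
    simp

/-- mean squares over windows -/
lemma win_sq (hX : Ctx E af φ) {B : ℝ} (hB : 1 ≤ B) : ∃ C : ℝ, 0 < C ∧ ∃ T0 : ℝ, ∀ K : ℕ, 1 ≤ K → ∀ T : ℝ, T0 ≤ T →
    2 * (K:ℝ) ^ 100 ≤ T →
    ∫⁻ R in Icc T (B * T), ENNReal.ofReal ((E R - U af φ R K) ^ 2) ≤
      ENNReal.ofReal (T * (C * (K:ℝ) ^ (-(1/200):ℝ))) := by
  have hlogB : 0 ≤ Real.log B := Real.log_nonneg hB
  obtain ⟨C, hC, ρ, hρ, hl⟩ := hX.l2 0 (Real.log B) hlogB
  refine ⟨B * C, by positivity, ρ, fun K hK T hT hKT => ?_⟩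
  have hT0 : 0 < T := lt_of_lt_of_le hρ hT
  have h1 := hl 1 T le_rfl hT0 (by simpa using hT) K hK (by simp; linarith)
  set f : ℝ → ℝ := fun y => T * Real.exp (1 * y) with hf
  have himg : Icc T (B * T) ⊆ f '' Icc 0 (Real.log B) := by
    intro R hR
    have hR0 : 0 < R := lt_of_lt_of_le hT0 hR.1
    refine ⟨Real.log (R / T), ⟨Real.log_nonneg ((one_le_div hT0).mpr hR.1), ?_⟩, ?_⟩
    · apply Real.log_le_log (by positivity)
      rw [div_le_iff₀ hT0]
      exact hR.2
    · simp only [hf, one_mul]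
      rw [Real.exp_log (by positivity)]
      field_simp
  have hder : ∀ y ∈ Icc 0 (Real.log B), HasDerivWithinAt f (T * (Real.exp (1 * y) * 1)) (Icc 0 (Real.log B)) y := by
    intro y _
    have := ((Real.hasDerivAt_exp (1 * y)).comp y ((hasDerivAt_id y).const_mul 1)).const_mul T
    simp only [mul_one] at this ⊢
    exact this.hasDerivWithinAt
  have hinj : InjOn f (Icc 0 (Real.log B)) := by
    intro y _ z _ hyz
    simp only [hf, one_mul] at hyz
    exact Real.exp_injective (mul_left_cancel₀ hT0.ne' hyz)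
  calc ∫⁻ R in Icc T (B * T), ENNReal.ofReal ((E R - U af φ R K) ^ 2)
      ≤ ∫⁻ R in f '' Icc 0 (Real.log B), ENNReal.ofReal ((E R - U af φ R K) ^ 2) := lintegral_mono_set himg
    _ = ∫⁻ y in Icc 0 (Real.log B), ENNReal.ofReal |T * (Real.exp (1 * y) * 1)| *
          ENNReal.ofReal ((E (f y) - U af φ (f y) K) ^ 2) :=
        lintegral_image_eq_lintegral_abs_deriv_mul measurableSet_Icc hder hinj _
    _ ≤ ∫⁻ y in Icc 0 (Real.log B), ENNReal.ofReal (B * T) *
          ENNReal.ofReal ((E (f y) - U af φ (f y) K) ^ 2) := by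
        apply setLIntegral_mono' measurableSet_Icc
        intro y hy
        gcongr
        rw [mul_one, one_mul, abs_of_pos (by positivity), mul_comm]
        apply mul_le_mul_of_nonneg_right _ hT0.le
        calc Real.exp y ≤ Real.exp (Real.log B) := Real.exp_le_exp.mpr hy.2
          _ = B := Real.exp_log (by linarith)
    _ = ENNReal.ofReal (B * T) * ∫⁻ y in Icc 0 (Real.log B), ENNReal.ofReal ((E (f y) - U af φ (f y) K) ^ 2) :=
        lintegral_const_mul' _ _ ENNReal.ofReal_ne_top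
    _ ≤ ENNReal.ofReal (B * T) * ENNReal.ofReal (C * (K:ℝ) ^ (-(1/200):ℝ)) := by gcongr
    _ = _ := by
        rw [← ENNReal.ofReal_mul (by positivity)]
        congr 1
        ring

/-- slices of the box -/
lemma box_slice (D : Fin k → ℕ) {T : ℝ} (hT : 0 < T) (σ0 : Σ j : Fin k, Fin (D j))
    {f : ((Σ j : Fin k, Fin (D j)) → ℝ) → ℝ≥0∞} (hf : Measurable f) {Q : ℝ≥0∞}
    (h : ∀ y, ∫⁻ t, f (Function.update y σ0 t) ∂(unif T) ≤ Q) : ∫⁻ y, f y ∂(box D T) ≤ Q := by
  classical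
  have := unif_prob hT
  unfold box
  rw [lintegral_eq_lmarginal_univ (0 : (Σ j : Fin k, Fin (D j)) → ℝ), lmarginal_erase' f hf (Finset.mem_univ σ0)]
  have h2 : (∫⋯∫⁻_Finset.univ.erase σ0, (fun x => ∫⁻ t, f (Function.update x σ0 t) ∂(unif T)) ∂(fun _ => unif T)) 0 ≤
      (∫⋯∫⁻_Finset.univ.erase σ0, (fun _ => Q) ∂(fun _ => unif T)) 0 := lmarginal_mono (fun y => h y) 0
  refine h2.trans ?_
  simp [lmarginal]

lemma box_apx (hX : Ctx E af φ) (h : Fin r → ℝ) (hh : ∀ i, 0 ≤ h i) (s : Fin r → Fin k) (D : Fin k → ℕ)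
    (hD : ∀ j, 1 ≤ D j) {T : ℕ → ℝ} (hT0 : ∀ n, 0 < T n) (hT : Tendsto T atTop atTop) (i : Fin r) {ε : ℝ} (hε : 0 < ε) :
    ∀ᶠ K : ℕ in atTop, ∀ᶠ n : ℕ in atTop,
      ∫⁻ R, ENNReal.ofReal ((E (R i) - U af φ (R i) K) ^ 2) ∂((box D (T n)).map (pol h s D)) ≤ ENNReal.ofReal ε := by
  classical
  set B : ℝ := 2 * ∑ l : Fin (D (s i)), h i ^ (l : ℕ) with hB
  set l0 : Fin (D (s i)) := ⟨0, hD (s i)⟩ with hl0
  have hS1 : 1 ≤ ∑ l : Fin (D (s i)), h i ^ (l : ℕ) := by
    have h1 := Finset.single_le_sum (f := fun l : Fin (D (s i)) => h i ^ (l : ℕ)) (fun l _ => pow_nonneg (hh i) _)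
      (Finset.mem_univ l0)
    simpa [hl0] using h1
  have hB1 : 1 ≤ B := by rw [hB]; linarith
  obtain ⟨C, hC, T0, hwin⟩ := win_sq hX hB1
  have e1 : ∀ᶠ K : ℕ in atTop, C * (K:ℝ) ^ (-(1/200):ℝ) < ε := by
    have g1 : Tendsto (fun K : ℕ => C * (K:ℝ) ^ (-(1/200):ℝ)) atTop (𝓝 (C * 0)) :=
      ((tendsto_rpow_neg_atTop (by norm_num : (0:ℝ) < 1/200)).comp tendsto_natCast_atTop_atTop).const_mul C
    rw [mul_zero] at g1
    exact g1.eventually (gt_mem_nhds hε)
  filter_upwards [e1, eventually_ge_atTop 1] with K hK hK1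
  filter_upwards [hT.eventually_ge_atTop T0, hT.eventually_ge_atTop (2 * (K:ℝ) ^ 100)] with n hn1 hn2
  have hTn := hT0 n
  have hmG : Measurable fun R : ℝ => ENNReal.ofReal ((E R - U af φ R K) ^ 2) :=
    ((hX.meas.sub (U_cont af φ K).measurable).pow_const 2).ennreal_ofReal
  have hpm : Measurable fun y : (Σ j : Fin k, Fin (D j)) → ℝ => pol h s D y i :=
    (measurable_pi_apply i).comp (pol_cont h s D).measurable
  set G : ℝ → ℝ≥0∞ := indicator (Icc (T n) (B * T n)) fun R => ENNReal.ofReal ((E R - U af φ R K) ^ 2) with hG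
  have hGm : Measurable G := hmG.indicator measurableSet_Icc
  have hmGi : Measurable fun R : Fin r → ℝ => ENNReal.ofReal ((E (R i) - U af φ (R i) K) ^ 2) :=
    hmG.comp (measurable_pi_apply i)
  rw [lintegral_map hmGi (pol_cont h s D).measurable]
  have e2 : ∫⁻ y, ENNReal.ofReal ((E (pol h s D y i) - U af φ (pol h s D y i) K) ^ 2) ∂(box D (T n)) =
      ∫⁻ y, G (pol h s D y i) ∂(box D (T n)) := by
    apply lintegral_congr_ae
    filter_upwards [box_ae D hTn] with y hy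
    have hmem : pol h s D y i ∈ Icc (T n) (B * T n) := by
      constructor
      · have h1 := Finset.single_le_sum (f := fun l : Fin (D (s i)) => y ⟨s i, l⟩ * h i ^ (l : ℕ))
          (fun l _ => mul_nonneg (hTn.le.trans (hy _).1) (pow_nonneg (hh i) _)) (Finset.mem_univ l0)
        have h2 : y ⟨s i, l0⟩ * h i ^ ((l0 : Fin (D (s i))) : ℕ) = y ⟨s i, l0⟩ := by simp [hl0]
        rw [h2] at h1
        exact (hy _).1.trans h1
      · unfold pol
        rw [hB, mul_assoc, Finset.sum_mul, Finset.mul_sum]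
        apply Finset.sum_le_sum
        intro l _
        have h3 := mul_le_mul_of_nonneg_right (hy ⟨s i, l⟩).2 (pow_nonneg (hh i) (l : ℕ))
        linarith
    rw [hG, indicator_of_mem hmem]
  change ∫⁻ y, ENNReal.ofReal ((E (pol h s D y i) - U af φ (pol h s D y i) K) ^ 2) ∂(box D (T n)) ≤ _
  rw [e2]
  refine (box_slice D hTn ⟨s i, l0⟩ (hGm.comp hpm) (Q := (ENNReal.ofReal (T n))⁻¹ * ∫⁻ R, G R) fun y => ?_).trans ?_
  · unfold unif
    rw [lintegral_smul_measure, smul_eq_mul]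
    refine mul_le_mul' le_rfl ?_
    set cy : ℝ := ∑ l ∈ Finset.univ.erase l0, y ⟨s i, l⟩ * h i ^ (l : ℕ) with hcy
    have e3 : ∀ t : ℝ, pol h s D (Function.update y ⟨s i, l0⟩ t) i = t + cy := by
      intro t
      unfold pol
      rw [← Finset.add_sum_erase _ _ (Finset.mem_univ l0), Function.update_self]
      congr 1
      · simp [hl0]
      · rw [hcy]
        apply Finset.sum_congr rfl
        intro l hl
        rw [Function.update_of_ne]
        intro heq
        apply (Finset.mem_erase.mp hl).1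
        exact eq_of_heq (Sigma.mk.inj heq).2
    calc ∫⁻ t in Icc (T n) (2 * T n), G (pol h s D (Function.update y ⟨s i, l0⟩ t) i)
        = ∫⁻ t in Icc (T n) (2 * T n), G (t + cy) := by simp only [e3]
      _ ≤ ∫⁻ t, G (t + cy) := setLIntegral_le_lintegral _ _
      _ = ∫⁻ t, G t := lintegral_add_right_eq_self G cy
  · have e4 : ∫⁻ R, G R = ∫⁻ R in Icc (T n) (B * T n), ENNReal.ofReal ((E R - U af φ R K) ^ 2) := by
      rw [hG, lintegral_indicator measurableSet_Icc]
    rw [e4]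
    have h5 := hwin K hK1 (T n) hn1 hn2
    calc (ENNReal.ofReal (T n))⁻¹ * ∫⁻ R in Icc (T n) (B * T n), ENNReal.ofReal ((E R - U af φ R K) ^ 2)
        ≤ (ENNReal.ofReal (T n))⁻¹ * ENNReal.ofReal (T n * (C * (K:ℝ) ^ (-(1/200):ℝ))) := by gcongr
      _ = ENNReal.ofReal (C * (K:ℝ) ^ (-(1/200):ℝ)) := by
          rw [ENNReal.ofReal_mul hTn.le, ← mul_assoc, ENNReal.inv_mul_cancel (by simpa using hTn) ENNReal.ofReal_ne_top,
            one_mul]
      _ ≤ _ := ENNReal.ofReal_le_ofReal hK.le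

/-- **random polynomials form a system** -/
theorem sys_box (hX : Ctx E af φ) (h : Fin r → ℝ) (hh : ∀ i, 0 ≤ h i) (s : Fin r → Fin k) (D : Fin k → ℕ)
    (hD : ∀ j, 1 ≤ D j) {T : ℕ → ℝ} (hT0 : ∀ n, 0 < T n) (hT : Tendsto T atTop atTop) :
    Sys E af φ (Wp h s D) (fun n => (box D (T n)).map (pol h s D)) := by
  classical
  refine ⟨fun n => ?_, fun a => ?_, fun i ε hε => box_apx hX h hh s D hD hT0 hT i hε⟩
  · have := box_prob D (hT0 n)
    exact Measure.isProbabilityMeasure_map (pol_cont h s D).measurable.aemeasurable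
  · convert box_char h s D hT0 hT a

end

end Pool.Agent.H382.RP
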