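import Pool.Agent.H382.RP.Asm
import Pool.Graph.R_seed8.H383.SBound

/-!
# More shifts than the exponent allows: the law is not a product
-/

set_option autoImplicit false

open MeasureTheory Filter Topology Set
open scoped ENNReal RealInnerProductSpace
open Pool.Agent.H469R2.NK (e norm_e e_add conj_e e_zero)
open Pool.Agent.H383.Gen (U Bd)
open Pool.Agent.Y969.TM
open Pool.Agent.R306.GP
open Pool.Agent.NH20.NC

namespace Pool.Agent.H382.RP

noncomputable section

variable {r k : ℕ} {E : ℝ → ℝ} {af : ℕ → ℝ} {φ : ℝ} {W : (Fin r → ℕ →₀ ℤ) → Prop} {ρ : ℕ → Measure (Fin r → ℝ)}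

/-- a single coordinate is generic -/
def Gen1 (W : (Fin r → ℕ →₀ ℤ) → Prop) : Prop :=
  ∀ (i : Fin r) (b : ℕ →₀ ℤ), W (Pi.single i b) ↔ frq b = 0

/-- powers of one coordinate -/
lemma one_pow_lim (h : Sys E af φ W ρ) (hW : Gen1 W) (i : Fin r) (p K : ℕ) :
    Tendsto (fun n => ∫ R, ((U af φ (R i) K : ℝ) : ℂ) ^ p ∂(ρ n)) atTop (𝓝 (ZZ af φ p K)) := by
  classical
  have e0 : ∀ (y : Fin p → ℕ × Bool) (R : Fin r → ℝ), e (R i * ∑ l, fq (y l)) =
      chi (Pi.single i (∑ l, Finsupp.single (y l).1 (sb (y l).2))) R := by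
    intro y R
    unfold chi
    congr 1
    rw [Finset.sum_eq_single i]
    · rw [Pi.single_eq_same, frq_sum]
      simp only [frq_single]
      unfold fq
      ring
    · intro j _ hj
      rw [Pi.single_eq_of_ne hj, frq_zero, zero_mul]
    · intro h
      exact absurd (Finset.mem_univ _) h
  have h1 : ∀ n, ∫ R, ((U af φ (R i) K : ℝ) : ℂ) ^ p ∂(ρ n) =
      ∑ y ∈ TT p K, (∏ l, cf af φ (y l)) * ∫ R, chi (Pi.single i (∑ l, Finsupp.single (y l).1 (sb (y l).2))) R ∂(ρ n) := by
    intro n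
    have := h.prob n
    simp only [U_pow, e0]
    rw [integral_finsetSum _ (fun v _ => (chi_int _ _).const_mul _)]
    simp only [integral_const_mul]
  simp only [h1]
  have h2 : ZZ af φ p K = ∑ y ∈ TT p K, (∏ l, cf af φ (y l)) *
      (if W (Pi.single i (∑ l, Finsupp.single (y l).1 (sb (y l).2))) then (1:ℂ) else 0) := by
    unfold ZZ
    rw [Finset.sum_filter]
    apply Finset.sum_congr rfl
    intro y _
    have h3 : W (Pi.single i (∑ l, Finsupp.single (y l).1 (sb (y l).2))) ↔ ∑ l, fq (y l) = 0 := by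
      rw [hW, frq_sum]
      simp only [frq_single]
      rfl
    by_cases h4 : ∑ l, fq (y l) = 0
    · rw [if_pos h4, if_pos (h3.mpr h4), mul_one]
    · rw [if_neg h4, if_neg (fun h5 => h4 (h3.mp h5)), mul_zero]
  rw [h2]
  exact tendsto_finsetSum _ fun v _ => (h.char _).const_mul _

open Classical in
/-- the limit of the products -/
def SK (W : (Fin r → ℕ →₀ ℤ) → Prop) (af : ℕ → ℝ) (φ : ℝ) (K : ℕ) : ℂ :=
  ∑ v ∈ Fintype.piFinset (fun _ : Fin r => JS K), (∏ j, cf af φ (v j)) *
    (if W (fun j => Finsupp.single (v j).1 (sb (v j).2)) then 1 else 0)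

lemma prod_lim (h : Sys E af φ W ρ) (K : ℕ) :
    Tendsto (fun n => ∫ R, ((∏ j, U af φ (R j) K : ℝ) : ℂ) ∂(ρ n)) atTop (𝓝 (SK W af φ K)) := by
  classical
  have e0 : ∀ (v : Fin r → ℕ × Bool) (R : Fin r → ℝ), ∏ j, e (R j * fq (v j)) =
      chi (fun j => Finsupp.single (v j).1 (sb (v j).2)) R := by
    intro v R
    unfold chi
    rw [e_sum]
    apply Finset.prod_congr rfl
    intro j _
    rw [frq_single]
    unfold fq
    congr 1
    ring
  have h1 : ∀ n, ∫ R, ((∏ j, U af φ (R j) K : ℝ) : ℂ) ∂(ρ n) =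
      ∑ v ∈ Fintype.piFinset (fun _ : Fin r => JS K), (∏ j, cf af φ (v j)) *
        ∫ R, chi (fun j => Finsupp.single (v j).1 (sb (v j).2)) R ∂(ρ n) := by
    intro n
    have := h.prob n
    have e1 : ∀ R : Fin r → ℝ, ((∏ j, U af φ (R j) K : ℝ) : ℂ) =
        ∑ v ∈ Fintype.piFinset (fun _ : Fin r => JS K), (∏ j, cf af φ (v j)) *
          chi (fun j => Finsupp.single (v j).1 (sb (v j).2)) R := by
      intro R
      push_cast
      simp only [U_exp]
      rw [Finset.prod_univ_sum]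
      apply Finset.sum_congr rfl
      intro v _
      rw [Finset.prod_mul_distrib, e0]
    simp only [e1]
    rw [integral_finsetSum _ (fun v _ => (chi_int _ _).const_mul _)]
    simp only [integral_const_mul]
  simp only [h1]
  unfold SK
  exact tendsto_finsetSum _ fun v _ => (h.char _).const_mul _

/-- truncation -/
def clamp (T z : ℝ) : ℝ := max (-T) (min z T)

lemma clamp_cont (T : ℝ) : Continuous (clamp T) := by unfold clamp; fun_prop

lemma clamp_le {T : ℝ} (hT : 0 ≤ T) (z : ℝ) : |clamp T z| ≤ T := by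
  unfold clamp
  rw [abs_le]
  exact ⟨le_max_left _ _, max_le (by linarith) (min_le_right _ _)⟩

lemma clamp_lip (T z w : ℝ) : |clamp T z - clamp T w| ≤ |z - w| := by
  unfold clamp
  refine (abs_max_sub_max_le_max _ _ _ _).trans ?_
  rw [sub_self, abs_zero]
  refine max_le (abs_nonneg _) ((abs_min_sub_min_le_max _ _ _ _).trans ?_)
  rw [sub_self, abs_zero]
  exact max_le le_rfl (abs_nonneg _)

lemma clamp_abs {T : ℝ} (hT : 0 ≤ T) (z : ℝ) : |clamp T z| ≤ |z| := by
  have h1 := clamp_lip T z 0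
  have h2 : clamp T 0 = 0 := by
    unfold clamp
    rw [min_eq_left hT, max_eq_right (by linarith)]
  rwa [h2, sub_zero, sub_zero] at h1

lemma clamp_sub {T : ℝ} (hT : 0 < T) (z : ℝ) : |clamp T z - z| ≤ z ^ 2 / T := by
  rcases le_total |z| T with h | h
  · obtain ⟨h1, h2⟩ := abs_le.mp h
    have : clamp T z = z := by
      unfold clamp
      rw [min_eq_left h2, max_eq_right h1]
    rw [this, sub_self, abs_zero]
    positivity
  · have h1 : |clamp T z - z| ≤ |z| := by
      unfold clamp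
      rcases le_total 0 z with hz | hz
      · rw [abs_of_nonneg hz] at h ⊢
        rw [min_eq_right h, max_eq_right (by linarith), abs_le]
        constructor <;> linarith
      · rw [abs_of_nonpos hz] at h ⊢
        rw [min_eq_left (by linarith), max_eq_left (by linarith), abs_le]
        constructor <;> linarith
    refine h1.trans ?_
    rw [le_div_iff₀ hT, ← sq_abs, pow_two]
    exact mul_le_mul_of_nonneg_left h (abs_nonneg _)

/-- differences of products -/
lemma prod_sub_le (x y : Fin r → ℝ) {T : ℝ} (hT : 1 ≤ T) (hx : ∀ j, |x j| ≤ T) (hy : ∀ j, |y j| ≤ T) :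
    |∏ j, x j - ∏ j, y j| ≤ T ^ r * ∑ j, |x j - y j| := by
  classical
  have key : ∀ S : Finset (Fin r), |∏ j ∈ S, x j - ∏ j ∈ S, y j| ≤ T ^ S.card * ∑ j ∈ S, |x j - y j| := by
    intro S
    induction S using Finset.induction_on with
    | empty => simp
    | insert a S ha ih =>
      rw [Finset.prod_insert ha, Finset.prod_insert ha, Finset.sum_insert ha, Finset.card_insert_of_notMem ha]
      have e1 : x a * ∏ j ∈ S, x j - y a * ∏ j ∈ S, y j =
          (x a - y a) * ∏ j ∈ S, x j + y a * (∏ j ∈ S, x j - ∏ j ∈ S, y j) := by ring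
      rw [e1]
      have h1 : |∏ j ∈ S, x j| ≤ T ^ S.card := by
        rw [Finset.abs_prod, ← Finset.prod_const]
        exact Finset.prod_le_prod (fun _ _ => abs_nonneg _) fun j _ => hx j
      have hTS : 0 ≤ T ^ S.card := by positivity
      have hTS2 : T ^ S.card ≤ T ^ (S.card + 1) := pow_le_pow_right₀ hT (by omega)
      refine (abs_add_le _ _).trans ?_
      rw [abs_mul, abs_mul]
      calc |x a - y a| * |∏ j ∈ S, x j| + |y a| * |∏ j ∈ S, x j - ∏ j ∈ S, y j|
          ≤ |x a - y a| * T ^ (S.card + 1) + T * (T ^ S.card * ∑ j ∈ S, |x j - y j|) := by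
            apply add_le_add
            · exact mul_le_mul_of_nonneg_left (h1.trans hTS2) (abs_nonneg _)
            · exact mul_le_mul (hy a) ih (abs_nonneg _) (by linarith)
        _ = _ := by ring
  have := key Finset.univ
  rwa [Finset.card_univ, Fintype.card_fin] at this

/-- truncation of products -/
lemma prod_clamp (hr : 1 ≤ r) (v : Fin r → ℝ) {T : ℝ} (hT : 1 ≤ T) :
    |∏ j, clamp T (v j) - ∏ j, v j| ≤ (r : ℝ) ^ (2 * r + 3) * 2 ^ (2 * r + 4) * (∑ j, (1 + v j ^ (2 * r + 4))) / T := by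
  have hT0 : 0 < T := by linarith
  set M : ℝ := ∑ j, (1 + |v j|) with hM
  have hvM : ∀ j, |v j| ≤ M := by
    intro j
    have : 1 + |v j| ≤ M :=
      Finset.single_le_sum (f := fun j => 1 + |v j|) (fun j _ => by positivity) (Finset.mem_univ j)
    linarith
  have hM1 : 1 ≤ M := by
    have h1 : 1 + |v ⟨0, hr⟩| ≤ M :=
      Finset.single_le_sum (f := fun j => 1 + |v j|) (fun j _ => by positivity) (Finset.mem_univ (⟨0, hr⟩ : Fin r))
    have h2 := abs_nonneg (v ⟨0, hr⟩)
    linarith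
  have h1 := prod_sub_le (fun j => clamp T (v j)) v hM1 (fun j => (clamp_abs hT0.le _).trans (hvM j)) hvM
  have h2 : ∑ j, |clamp T (v j) - v j| ≤ M ^ 2 / T := by
    calc ∑ j, |clamp T (v j) - v j| ≤ ∑ j, (v j) ^ 2 / T := Finset.sum_le_sum fun j _ => clamp_sub hT0 _
      _ = (∑ j, |v j| ^ 2) / T := by simp only [sq_abs, Finset.sum_div]
      _ ≤ (∑ j, (1 + |v j|)) ^ 2 / T := by
          apply div_le_div_of_nonneg_right _ hT0.le
          calc ∑ j, |v j| ^ 2 ≤ ∑ j, (1 + |v j|) * M := by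
                apply Finset.sum_le_sum
                intro j _
                rw [pow_two]
                exact mul_le_mul (by linarith) (hvM j) (abs_nonneg _) (by positivity)
            _ = (∑ j, (1 + |v j|)) ^ 2 := by rw [← Finset.sum_mul, ← hM]; ring
      _ = _ := by rw [hM]
  have h3 : M ^ (2 * r + 4) ≤ (r:ℝ) ^ (2 * r + 3) * ∑ j, (1 + |v j|) ^ (2 * r + 4) := by
    have h4 := pow_sum_div_card_le_sum_pow (s := (Finset.univ : Finset (Fin r))) (f := fun j => 1 + |v j|)
      (fun j _ => by positivity) (2 * r + 3)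
    rw [Finset.card_univ, Fintype.card_fin] at h4
    have hr0 : (0:ℝ) < (r:ℝ) ^ (2 * r + 3) := by
      have : (0:ℝ) < r := by exact_mod_cast hr
      positivity
    rw [div_le_iff₀ hr0] at h4
    calc M ^ (2 * r + 4) = (∑ i, (1 + |v i|)) ^ (2 * r + 3 + 1) := by rw [hM]
      _ ≤ (∑ i, (1 + |v i|) ^ (2 * r + 3 + 1)) * (r:ℝ) ^ (2 * r + 3) := h4
      _ = _ := by rw [mul_comm]
  have h5 : ∀ j, (1 + |v j|) ^ (2 * r + 4) ≤ 2 ^ (2 * r + 4) * (1 + v j ^ (2 * r + 4)) := by
    intro j
    have hev : v j ^ (2 * r + 4) = |v j| ^ (2 * r + 4) := by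
      rw [Even.pow_abs ⟨r + 2, by ring⟩]
    rw [hev]
    rcases le_total |v j| 1 with h | h
    · calc (1 + |v j|) ^ (2 * r + 4) ≤ 2 ^ (2 * r + 4) := pow_le_pow_left₀ (by positivity) (by linarith) _
        _ ≤ _ := le_mul_of_one_le_right (by positivity) (by
            have : 0 ≤ |v j| ^ (2 * r + 4) := by positivity
            linarith)
    · calc (1 + |v j|) ^ (2 * r + 4) ≤ (2 * |v j|) ^ (2 * r + 4) := pow_le_pow_left₀ (by positivity) (by linarith) _
        _ = 2 ^ (2 * r + 4) * |v j| ^ (2 * r + 4) := mul_pow _ _ _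
        _ ≤ _ := by
            apply mul_le_mul_of_nonneg_left _ (by positivity)
            linarith
  calc |∏ j, clamp T (v j) - ∏ j, v j| ≤ M ^ r * ∑ j, |clamp T (v j) - v j| := h1
    _ ≤ M ^ r * (M ^ 2 / T) := mul_le_mul_of_nonneg_left h2 (by positivity)
    _ = M ^ (r + 2) / T := by rw [pow_add]; ring
    _ ≤ M ^ (2 * r + 4) / T := by
        apply div_le_div_of_nonneg_right _ hT0.le
        exact pow_le_pow_right₀ hM1 (by omega)
    _ ≤ ((r:ℝ) ^ (2 * r + 3) * ∑ j, (1 + |v j|) ^ (2 * r + 4)) / T := div_le_div_of_nonneg_right h3 hT0.le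
    _ ≤ ((r:ℝ) ^ (2 * r + 3) * ∑ j, (2 ^ (2 * r + 4) * (1 + v j ^ (2 * r + 4)))) / T := by
        apply div_le_div_of_nonneg_right _ hT0.le
        apply mul_le_mul_of_nonneg_left _ (by positivity)
        exact Finset.sum_le_sum fun j _ => h5 j
    _ = _ := by rw [← Finset.mul_sum]; ring

lemma U_bd (af : ℕ → ℝ) (φ R : ℝ) (K : ℕ) : |U af φ R K| ≤ AA af K := by
  unfold U AA
  refine (Finset.abs_sum_le_sum_abs _ _).trans (Finset.sum_le_sum fun m _ => ?_)
  rw [abs_mul]
  exact mul_le_of_le_one_right (abs_nonneg _) (Real.abs_cos_le_one _)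

/-- the mean of the product of the error terms, cut off, is close to the limit of the products of the
model polynomials -/
theorem sk_close (hE : Measurable E) (hr : 1 ≤ r) (hBd : Bd af) (h : Sys E af φ W ρ) (hW : Gen1 W) :
    ∃ C : ℝ, 0 ≤ C ∧ ∀ T : ℝ, 1 ≤ T → ∀ ε : ℝ, 0 < ε → ∀ᶠ K : ℕ in atTop,
      |∫ x, ∏ j, clamp T (x j) ∂(lawW E af φ W : Measure (Fin r → ℝ)) - (SK W af φ K).re| ≤ ε + C / T := by
  obtain ⟨Kz, hKz, hZ⟩ := ZZ_bound φ hBd
  set A : ℝ := (r : ℝ) ^ (2 * r + 3) * 2 ^ (2 * r + 4) with hA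
  have hA0 : 0 ≤ A := by positivity
  set F : ℝ := Kz * ((2 * (r + 2)).factorial : ℝ) with hF
  have hF0 : 0 ≤ F := by positivity
  refine ⟨A * (r * (1 + F)), by positivity, fun T hT ε hε => ?_⟩
  have hT0 : 0 < T := by linarith
  set η : ℝ := ε / (2 * (T ^ r * r) + 1) with hη
  have hη0 : 0 < η := by positivity
  have hηε : T ^ r * (r * (2 * η)) ≤ ε := by
    have h1 : T ^ r * (r * (2 * η)) = (2 * (T ^ r * r)) * η := by ring
    rw [h1, hη, mul_div_assoc']
    rw [div_le_iff₀ (by positivity)]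
    nlinarith
  have h1 : ∀ᶠ K : ℕ in atTop, ∀ i : Fin r, ∀ᶠ n : ℕ in atTop,
      Integrable (fun R => (E (R i) - U af φ (R i) K) ^ 2) (ρ n) ∧
      ∫ R, (E (R i) - U af φ (R i) K) ^ 2 ∂(ρ n) ≤ η ^ 2 :=
    eventually_all.mpr fun i => apx_real hE h i (by positivity)
  filter_upwards [h1] with K hK
  -- the limits
  have l1 : Tendsto (fun n => ∫ R, ∏ j, clamp T (E (R j)) ∂(ρ n)) atTop
      (𝓝 (∫ x, ∏ j, clamp T (x j) ∂(lawW E af φ W : Measure (Fin r → ℝ)))) := by
    have hc : Continuous fun x : Fin r → ℝ => ∏ j, clamp T (x j) :=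
      continuous_finsetProd _ fun j _ => (clamp_cont T).comp (continuous_apply j)
    refine lawW_spec hE h hc ⟨T ^ r, fun x => ?_⟩
    rw [Finset.abs_prod]
    calc ∏ j, |clamp T (x j)| ≤ ∏ _j : Fin r, T :=
          Finset.prod_le_prod (fun _ _ => abs_nonneg _) fun j _ => clamp_le hT0.le _
      _ = T ^ r := by simp
  have l2 : Tendsto (fun n => ∫ R, ∏ j, U af φ (R j) K ∂(ρ n)) atTop (𝓝 (SK W af φ K).re) := by
    have h2 := (Complex.continuous_re.tendsto _).comp (prod_lim h K)
    refine h2.congr fun n => ?_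
    have h3 : ∫ R, ((∏ j, U af φ (R j) K : ℝ) : ℂ) ∂(ρ n) = ((∫ R, ∏ j, U af φ (R j) K ∂(ρ n) : ℝ) : ℂ) :=
      integral_ofReal (f := fun R : Fin r → ℝ => ∏ j, U af φ (R j) K)
    change (∫ R, ((∏ j, U af φ (R j) K : ℝ) : ℂ) ∂(ρ n)).re = _
    rw [h3]
    exact Complex.ofReal_re _
  have l3 : ∀ i : Fin r, Tendsto (fun n => ∫ R, U af φ (R i) K ^ (2 * r + 4) ∂(ρ n)) atTop
      (𝓝 (ZZ af φ (2 * r + 4) K).re) := by
    intro i
    have h2 := (Complex.continuous_re.tendsto _).comp (one_pow_lim h hW i (2 * r + 4) K)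
    refine h2.congr fun n => ?_
    have h3 : ∫ R, ((U af φ (R i) K : ℝ) : ℂ) ^ (2 * r + 4) ∂(ρ n) =
        ((∫ R, U af φ (R i) K ^ (2 * r + 4) ∂(ρ n) : ℝ) : ℂ) := by
      simp only [← Complex.ofReal_pow]
      exact integral_ofReal (f := fun R : Fin r → ℝ => U af φ (R i) K ^ (2 * r + 4))
    change (∫ R, ((U af φ (R i) K : ℝ) : ℂ) ^ (2 * r + 4) ∂(ρ n)).re = _
    rw [h3]
    exact Complex.ofReal_re _
  have l4 : Tendsto (fun n => T ^ r * (r * (2 * η)) + A * (∑ i : Fin r, (1 + ∫ R, U af φ (R i) K ^ (2 * r + 4) ∂(ρ n))) / T)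
      atTop (𝓝 (T ^ r * (r * (2 * η)) + A * (∑ _i : Fin r, (1 + (ZZ af φ (2 * r + 4) K).re)) / T)) :=
    (((tendsto_finsetSum _ fun i _ => (l3 i).const_add 1).const_mul A).div_const T).const_add _
  have l5 := (l1.sub l2).abs
  have key : |∫ x, ∏ j, clamp T (x j) ∂(lawW E af φ W : Measure (Fin r → ℝ)) - (SK W af φ K).re| ≤
      T ^ r * (r * (2 * η)) + A * (∑ _i : Fin r, (1 + (ZZ af φ (2 * r + 4) K).re)) / T := by
    refine le_of_tendsto_of_tendsto l5 l4 ?_
    filter_upwards [eventually_all.mpr hK] with n hn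
    have := h.prob n
    have hUm : ∀ j : Fin r, Measurable fun R : Fin r → ℝ => U af φ (R j) K := fun j =>
      (U_cont af φ K).measurable.comp (measurable_pi_apply j)
    have hi1 : Integrable (fun R : Fin r → ℝ => ∏ j, clamp T (E (R j))) (ρ n) := by
      refine Integrable.of_bound (Finset.measurable_prod _ fun j _ => (clamp_cont T).measurable.comp
        (hE.comp (measurable_pi_apply j))).aestronglyMeasurable (T ^ r) (Eventually.of_forall fun R => ?_)
      rw [Real.norm_eq_abs, Finset.abs_prod]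
      calc ∏ j, |clamp T (E (R j))| ≤ ∏ _j : Fin r, T :=
            Finset.prod_le_prod (fun _ _ => abs_nonneg _) fun j _ => clamp_le hT0.le _
        _ = T ^ r := by simp
    have hi2 : Integrable (fun R : Fin r → ℝ => ∏ j, U af φ (R j) K) (ρ n) := by
      refine Integrable.of_bound (Finset.measurable_prod _ fun j _ => hUm j).aestronglyMeasurable (AA af K ^ r)
        (Eventually.of_forall fun R => ?_)
      rw [Real.norm_eq_abs, Finset.abs_prod]
      calc ∏ j, |U af φ (R j) K| ≤ ∏ _j : Fin r, AA af K :=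
            Finset.prod_le_prod (fun _ _ => abs_nonneg _) fun j _ => U_bd _ _ _ _
        _ = AA af K ^ r := by simp
    have hi3 : ∀ j : Fin r, Integrable (fun R : Fin r → ℝ => U af φ (R j) K ^ (2 * r + 4)) (ρ n) := by
      intro j
      refine Integrable.of_bound ((hUm j).pow_const _).aestronglyMeasurable (AA af K ^ (2 * r + 4))
        (Eventually.of_forall fun R => ?_)
      rw [Real.norm_eq_abs, abs_pow]
      exact pow_le_pow_left₀ (abs_nonneg _) (U_bd _ _ _ _) _
    have hj1 : ∀ j ∈ (Finset.univ : Finset (Fin r)),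
        Integrable (fun R : Fin r → ℝ => η + η⁻¹ * (E (R j) - U af φ (R j) K) ^ 2) (ρ n) :=
      fun j _ => (integrable_const _).add ((hn j).1.const_mul _)
    have hj2 : ∀ j ∈ (Finset.univ : Finset (Fin r)),
        Integrable (fun R : Fin r → ℝ => 1 + U af φ (R j) K ^ (2 * r + 4)) (ρ n) :=
      fun j _ => (integrable_const _).add (hi3 j)
    have hB1 : Integrable (fun R : Fin r → ℝ => T ^ r * ∑ j, (η + η⁻¹ * (E (R j) - U af φ (R j) K) ^ 2)) (ρ n) :=
      (integrable_finsetSum _ hj1).const_mul _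
    have hB2 : Integrable (fun R : Fin r → ℝ => A * (∑ j, (1 + U af φ (R j) K ^ (2 * r + 4))) / T) (ρ n) :=
      ((integrable_finsetSum _ hj2).const_mul A).div_const T
    rw [← integral_sub hi1 hi2, ← Real.norm_eq_abs]
    refine (norm_integral_le_of_norm_le (hB1.add hB2) (Eventually.of_forall fun R => ?_)).trans ?_
    · rw [Real.norm_eq_abs]
      have e1 : ∏ j, clamp T (E (R j)) - ∏ j, U af φ (R j) K =
          (∏ j, clamp T (E (R j)) - ∏ j, clamp T (U af φ (R j) K)) +
          (∏ j, clamp T (U af φ (R j) K) - ∏ j, U af φ (R j) K) := by ring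
      rw [e1]
      refine (abs_add_le _ _).trans (add_le_add ?_ ?_)
      · refine (prod_sub_le _ _ hT (fun j => clamp_le hT0.le _) (fun j => clamp_le hT0.le _)).trans ?_
        apply mul_le_mul_of_nonneg_left _ (by positivity)
        exact Finset.sum_le_sum fun j _ => (clamp_lip _ _ _).trans (amgm hη0)
      · exact prod_clamp hr _ hT
    · have e2 : ∫ R, ((fun R : Fin r → ℝ => T ^ r * ∑ j, (η + η⁻¹ * (E (R j) - U af φ (R j) K) ^ 2)) +
          (fun R : Fin r → ℝ => A * (∑ j, (1 + U af φ (R j) K ^ (2 * r + 4))) / T)) R ∂(ρ n) =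
          T ^ r * ∑ j, (η + η⁻¹ * ∫ R, (E (R j) - U af φ (R j) K) ^ 2 ∂(ρ n)) +
          A * (∑ j, (1 + ∫ R, U af φ (R j) K ^ (2 * r + 4) ∂(ρ n))) / T := by
        rw [integral_add' hB1 hB2, integral_const_mul, integral_div, integral_const_mul,
          integral_finsetSum _ hj1, integral_finsetSum _ hj2]
        have f1 : ∀ j : Fin r, ∫ R, (η + η⁻¹ * (E (R j) - U af φ (R j) K) ^ 2) ∂(ρ n) =
            η + η⁻¹ * ∫ R, (E (R j) - U af φ (R j) K) ^ 2 ∂(ρ n) := by
          intro j
          rw [integral_add (integrable_const _) ((hn j).1.const_mul _), integral_const_mul]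
          simp
        have f2 : ∀ j : Fin r, ∫ R, (1 + U af φ (R j) K ^ (2 * r + 4)) ∂(ρ n) =
            1 + ∫ R, U af φ (R j) K ^ (2 * r + 4) ∂(ρ n) := by
          intro j
          rw [integral_add (integrable_const _) (hi3 j)]
          simp
        simp only [f1, f2]
      rw [e2]
      apply add_le_add _ le_rfl
      apply mul_le_mul_of_nonneg_left _ (by positivity)
      calc ∑ j, (η + η⁻¹ * ∫ R, (E (R j) - U af φ (R j) K) ^ 2 ∂(ρ n)) ≤ ∑ _j : Fin r, (2 * η) := by
            apply Finset.sum_le_sum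
            intro j _
            have h3 := mul_le_mul_of_nonneg_left (hn j).2 (by positivity : 0 ≤ η⁻¹)
            have h4 : η⁻¹ * η ^ 2 = η := by field_simp
            linarith
        _ = r * (2 * η) := by simp
  refine key.trans (add_le_add hηε ?_)
  apply div_le_div_of_nonneg_right _ hT0.le
  apply mul_le_mul_of_nonneg_left _ hA0
  rw [Finset.sum_const, Finset.card_univ, Fintype.card_fin, nsmul_eq_mul]
  apply mul_le_mul_of_nonneg_left _ (Nat.cast_nonneg _)
  have h5 := hZ (r + 2) K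
  rw [show 2 * (r + 2) = 2 * r + 4 by ring] at h5
  have h6 := (Complex.abs_re_le_norm (ZZ af φ (2 * r + 4) K)).trans h5
  have h7 := (abs_le.mp h6).2
  rw [hF, show 2 * (r + 2) = 2 * r + 4 by ring]
  linarith

end

end Pool.Agent.H382.RP
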