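import Pool.Agent.H382.RP.Ind

/-!
# Summary: random polynomials and powers with almost all exponents
-/

set_option autoImplicit false

open MeasureTheory Filter Topology Set
open scoped ENNReal RealInnerProductSpace
open Pool.Agent.H469R2.NK (e norm_e e_add conj_e e_zero)
open Pool.Agent.H383.Gen (U Bd)
open Pool.Agent.Y969.TM
open Pool.Agent.R306.GP
open Pool.Agent.NH20.NC

namespace Pool.Agent.H382.RP

noncomputable section

variable {r k : ℕ} {E : ℝ → ℝ} {af : ℕ → ℝ} {φ : ℝ}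

lemma box_eq (D : Fin k → ℕ) {T : ℝ} (hT : 0 < T) :
    box D T = (ENNReal.ofReal (T ^ (∑ j, D j)))⁻¹ • volume.restrict (Set.pi univ fun _ => Icc T (2 * T)) := by
  have := unif_prob hT
  unfold box
  symm
  rw [volume_pi, Measure.restrict_pi_pi]
  refine (Measure.pi_eq fun S _ => ?_).symm
  rw [Measure.smul_apply, Measure.pi_pi, smul_eq_mul]
  unfold unif
  simp only [Measure.smul_apply, smul_eq_mul]
  rw [Finset.prod_mul_distrib, Finset.prod_const, Finset.card_univ, Fintype.card_sigma]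
  simp only [Fintype.card_fin]
  rw [ENNReal.ofReal_pow hT.le, ENNReal.inv_pow]

/-- **the law of random polynomials** -/
theorem poly_law (hX : Ctx E af φ) (h : Fin r → ℝ) (hh : ∀ i, 0 ≤ h i) (s : Fin r → Fin k) (D : Fin k → ℕ)
    (hD : ∀ j, 1 ≤ D j) {f : (Fin r → ℝ) → ℝ} (hf : Continuous f) (hb : ∃ B, ∀ v, |f v| ≤ B) :
    Tendsto (fun T : ℝ => (∫ y in Set.pi univ (fun _ : (Σ j : Fin k, Fin (D j)) => Icc T (2 * T)),
      f (fun i => E (pol h s D y i))) / T ^ (∑ j, D j)) atTop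
      (𝓝 (∫ v, f v ∂(lawW E af φ (Wp h s D) : Measure (Fin r → ℝ)))) := by
  apply tendsto_of_seq_tendsto
  intro u hu
  have h1 : Tendsto (fun n => max (u n) 1) atTop atTop := tendsto_atTop_mono (fun n => le_max_left _ _) hu
  have h2 := lawW_spec hX.meas (sys_box hX h hh s D hD (T := fun n => max (u n) 1)
    (fun n => lt_of_lt_of_le one_pos (le_max_right _ _)) h1) hf hb
  refine h2.congr' ?_
  filter_upwards [hu.eventually_ge_atTop 1] with n hn
  have hn0 : 0 < u n := by linarith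
  have e0 : ((fun T : ℝ => (∫ y in Set.pi univ (fun _ : (Σ j : Fin k, Fin (D j)) => Icc T (2 * T)),
      f (fun i => E (pol h s D y i))) / T ^ (∑ j, D j)) ∘ u) n = (u n ^ (∑ j, D j))⁻¹ *
      ∫ y in Set.pi univ (fun _ : (Σ j : Fin k, Fin (D j)) => Icc (u n) (2 * u n)), f (fun i => E (pol h s D y i)) := by
    rw [← div_eq_inv_mul]
    rfl
  rw [e0, max_eq_left hn, integral_map (pol_cont h s D).measurable.aemeasurable, box_eq D hn0, integral_smul_measure,
    ENNReal.toReal_inv, ENNReal.toReal_ofReal (by positivity), smul_eq_mul]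
  exact (hf.measurable.comp (measurable_pi_lambda _ fun i => hX.meas.comp (measurable_pi_apply i))).aestronglyMeasurable

/-- the laws are consistent -/
theorem consist (hX : Ctx E af φ) (h : Fin r → ℝ) (s : Fin r → Fin k) (D : Fin k → ℕ) (hD : ∀ j, 1 ≤ D j)
    {r' : ℕ} (σ : Fin r' → Fin r) :
    (lawW E af φ (Wp h s D) : Measure (Fin r → ℝ)).map (fun v i => v (σ i)) =
      (lawW E af φ (Wp (fun i => h (σ i)) (fun i => s (σ i)) D) : Measure (Fin r' → ℝ)) := by
  have hm : Measurable fun (v : Fin r → ℝ) (i : Fin r') => v (σ i) :=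
    measurable_pi_lambda _ fun i => measurable_pi_apply _
  have hc' : Continuous fun (v : Fin r → ℝ) (i : Fin r') => v (σ i) := by fun_prop
  obtain ⟨c, ⟨h1, h2⟩, hc⟩ := exists_box D ((sys_pw hX Sx_nat h s D hD).and
    (sys_pw hX Sx_nat (fun i => h (σ i)) (fun i => s (σ i)) D hD))
  have : IsProbabilityMeasure ((lawW E af φ (Wp h s D) : Measure (Fin r → ℝ)).map (fun v i => v (σ i))) :=
    Measure.isProbabilityMeasure_map hm.aemeasurable
  apply prob_ext
  intro g hg hb
  rw [integral_map hm.aemeasurable hg.aestronglyMeasurable]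
  obtain ⟨B, hB⟩ := hb
  have k1 := em_spec hX.meas (h1 (ok_box hc)).1 (g := fun v => g (fun i => v (σ i))) (hg.comp hc') ⟨B, fun x => hB _⟩
  have k2 := em_spec hX.meas (h2 (ok_box hc)).1 (g := g) hg ⟨B, hB⟩
  exact tendsto_nhds_unique k1 k2

/-- a single group -/
lemma Wp_single (h : Fin r → ℝ) (D : Fin k → ℕ) (j : Fin k) :
    Wp h (fun _ => j) D = Wp h (fun _ => (0 : Fin 1)) (fun _ => D j) := by
  classical
  funext a
  apply propext
  constructor
  · intro ha j' l hl
    have h1 := ha j l hl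
    have e1 : (Finset.univ.filter fun _ : Fin r => j = j) = Finset.univ := Finset.filter_true_of_mem fun _ _ => rfl
    have e2 : (Finset.univ.filter fun _ : Fin r => (0 : Fin 1) = j') = Finset.univ :=
      Finset.filter_true_of_mem fun _ _ => Subsingleton.elim _ _
    rw [e1] at h1
    rw [e2]
    exact h1
  · intro ha j' l hl
    by_cases hj : j = j'
    · subst hj
      have h1 := ha 0 l hl
      have e1 : (Finset.univ.filter fun _ : Fin r => j = j) = Finset.univ := Finset.filter_true_of_mem fun _ _ => rfl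
      have e2 : (Finset.univ.filter fun _ : Fin r => (0 : Fin 1) = 0) = Finset.univ :=
        Finset.filter_true_of_mem fun _ _ => rfl
      rw [e2] at h1
      rw [e1]
      exact h1
    · have e1 : (Finset.univ.filter fun _ : Fin r => j = j') = ∅ := Finset.filter_false_of_mem fun _ _ => hj
      rw [e1, Finset.sum_empty]

/-- **long progressions of shifts** -/
theorem not_indep {μ : ProbabilityMeasure ℝ} (hX : Ctx E af φ) (hBd : Bd af)
    (hμ : ∀ t : ℝ, Tendsto (fun K => mK af φ K t) atTop (𝓝 (charFun (μ : Measure ℝ) t)))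
    (hφ : Real.cos φ ≠ 0) (ha : ∀ m, 0 ≤ af m) (hsq : ∀ q : ℕ, 1 ≤ q → 0 < af (q ^ 2))
    (h : Fin r → ℝ) (s : Fin r → Fin k) (D : Fin k → ℕ) (hD : ∀ j, 1 ≤ D j) (j : Fin k) (α β : ℝ) (hα : α ≠ 0)
    (σ : Fin (D j + 1) → Fin r) (hσ : Function.Injective σ) (hs : ∀ t, s (σ t) = j) (hhσ : ∀ t, h (σ t) = α * ((t : ℕ) : ℝ) + β) :
    (lawW E af φ (Wp h s D) : Measure (Fin r → ℝ)) ≠ Measure.pi fun _ : Fin r => (μ : Measure ℝ) := by
  intro heq
  have h1 := consist hX h s D hD σ
  have e1 : (fun t => s (σ t)) = fun _ => j := funext hs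
  have e2 : (fun t => h (σ t)) = fun t : Fin (D j + 1) => (fun _ : Fin 1 => α) 0 * cs (D j) t + (fun _ : Fin 1 => β) 0 := by
    funext t
    rw [hhσ t]
    rfl
  rw [e1, Wp_single, e2, Wp_affine (cs (D j)) (fun _ => (0 : Fin 1)) (fun _ => D j) (fun _ => α) (fun _ => β) (fun _ => hα),
    heq] at h1
  refine not_prod hX hBd hμ hφ ha hsq (hD j) ?_
  rw [← h1]
  -- the marginal of a product
  symm
  refine Measure.pi_eq fun S hS => ?_
  have hmσ : Measurable fun (v : Fin r → ℝ) (i : Fin (D j + 1)) => v (σ i) :=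
    measurable_pi_lambda _ fun i => measurable_pi_apply _
  rw [Measure.map_apply hmσ (MeasurableSet.univ_pi hS)]
  classical
  have e3 : (fun (v : Fin r → ℝ) (i : Fin (D j + 1)) => v (σ i)) ⁻¹' (Set.pi univ S) =
      Set.pi univ fun i' : Fin r => if hi : ∃ t, σ t = i' then S hi.choose else univ := by
    ext v
    simp only [mem_preimage, Set.mem_pi, mem_univ, forall_true_left]
    constructor
    · intro hv i'
      split_ifs with hi
      · have := hv hi.choose
        rwa [hi.choose_spec] at this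
      · exact mem_univ _
    · intro hv t
      have := hv (σ t)
      have hex : ∃ t', σ t' = σ t := ⟨t, rfl⟩
      rw [dif_pos hex] at this
      have h5 : hex.choose = t := hσ hex.choose_spec
      rwa [h5] at this
  rw [e3, Measure.pi_pi]
  have e4 : ∏ i' : Fin r, (μ : Measure ℝ) (if hi : ∃ t, σ t = i' then S hi.choose else univ) =
      ∏ i' ∈ Finset.univ.image σ, (μ : Measure ℝ) (if hi : ∃ t, σ t = i' then S hi.choose else univ) := by
    symm
    apply Finset.prod_subset (Finset.subset_univ _)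
    intro i' _ hi'
    rw [dif_neg, measure_univ]
    rintro ⟨t, ht⟩
    exact hi' (Finset.mem_image.mpr ⟨t, Finset.mem_univ _, ht⟩)
  rw [e4, Finset.prod_image (fun t _ t' _ ht => hσ ht)]
  apply Finset.prod_congr rfl
  intro t _
  have hex : ∃ t', σ t' = σ t := ⟨t, rfl⟩
  rw [dif_pos hex]
  have h5 : hex.choose = t := hσ hex.choose_spec
  rw [h5]

/-- no atoms of the coordinates -/
lemma law_atom {μ : ProbabilityMeasure ℝ} (hX : Ctx E af φ)
    (hμ : ∀ t : ℝ, Tendsto (fun K => mK af φ K t) atTop (𝓝 (charFun (μ : Measure ℝ) t)))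
    (hat : ∀ x : ℝ, (μ : Measure ℝ) {x} = 0) (h : Fin r → ℝ) (s : Fin r → Fin k) (D : Fin k → ℕ) (hD : ∀ j, 1 ≤ D j)
    (i : Fin r) (x : ℝ) : (lawW E af φ (Wp h s D) : Measure (Fin r → ℝ)) {v | v i = x} = 0 := by
  have h1 := marginal hX hμ h s D hD i
  have h2 := hat x
  rw [← h1, Measure.map_apply (measurable_pi_apply i) (measurableSet_singleton x)] at h2
  exact h2

open Classical in
/-- the limit law along a sequence of vectors: functions of quadratic growth and frequencies -/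
def HL (E : ℝ → ℝ) (ν : ProbabilityMeasure (Fin r → ℝ)) (X : ℕ → Fin r → ℝ) : Prop :=
  (∀ f : (Fin r → ℝ) → ℝ, Continuous f → (∃ C : ℝ, ∀ v, |f v| ≤ C * (1 + ‖v‖ ^ 2)) →
    Integrable f (ν : Measure (Fin r → ℝ)) ∧
    Tendsto (fun N : ℕ => (∑ n ∈ Finset.range N, f (fun i => E (X n i))) / (N : ℝ)) atTop
      (𝓝 (∫ v, f v ∂(ν : Measure (Fin r → ℝ))))) ∧
  (∀ u : Fin r → ℝ, Tendsto (fun N : ℕ =>
    (((Finset.range N).filter fun n : ℕ => ∀ i, E (X n i) ≤ u i).card : ℝ) / N) atTop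
      (𝓝 ((ν : Measure (Fin r → ℝ)).real {v | ∀ i, v i ≤ u i})))

/-- **powers with almost all exponents** -/
theorem pow_law {μ : ProbabilityMeasure ℝ} (hX : Ctx E af φ)
    (hμ : ∀ t : ℝ, Tendsto (fun K => mK af φ K t) atTop (𝓝 (charFun (μ : Measure ℝ) t)))
    (hat : ∀ x : ℝ, (μ : Measure ℝ) {x} = 0) {x : ℕ → ℝ} {δ τ G : ℝ} (hδ : 0 < δ) (hgap : ∀ n, x n + δ ≤ x (n + 1))
    (hτ0 : 0 ≤ τ) (hτ1 : τ ≤ 1) (hgrow : ∀ᶠ n : ℕ in atTop, x n ^ τ ≤ G * n)
    (h : Fin r → ℝ) (s : Fin r → Fin k) (D : Fin k → ℕ) (hD : ∀ j, 1 ≤ D j) :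
    ∀ᵐ c : Fin k → ℝ, Ok τ h s D c → HL E (lawW E af φ (Wp h s D)) (pw x h s c) := by
  classical
  obtain ⟨n0, G', hx⟩ := Sx.of hδ hgap hτ0 hτ1 hgrow
  filter_upwards [sys_pw hX hx h s D hD] with c hc hok
  obtain ⟨h1, h2⟩ := hc hok
  have h3 : ∀ f : (Fin r → ℝ) → ℝ, Continuous f → (∃ C : ℝ, ∀ v, |f v| ≤ C * (1 + ‖v‖ ^ 2)) →
    Integrable f (lawW E af φ (Wp h s D) : Measure (Fin r → ℝ)) ∧
    Tendsto (fun N : ℕ => (∑ n ∈ Finset.range N, f (fun i => E (pw x h s c n i))) / (N : ℝ)) atTop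
      (𝓝 (∫ v, f v ∂(lawW E af φ (Wp h s D) : Measure (Fin r → ℝ)))) := by
    intro f hf hfg
    obtain ⟨k1, k2⟩ := quad_conv (X := fun n i => E (pw (fun n => x (n + n0)) h s c n i))
      (ν := (lawW E af φ (Wp h s D) : Measure (Fin r → ℝ)))
      (fun g hg hgb => em_spec hX.meas h1 hg hgb) (tail_of_good h2) hf hfg
    exact ⟨k1, ces_shift (x := fun n => f (fun i => E (pw x h s c n i))) n0 k2⟩
  refine ⟨h3, fun u => ?_⟩
  have h4 := freq_law (X := fun (n : ℕ) (i : Fin r) => E (pw x h s c n i))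
    (ν := (lawW E af φ (Wp h s D) : Measure (Fin r → ℝ))) (law_atom hX hμ hat h s D hD) (fun g hg hgb => by
    obtain ⟨B, hB⟩ := hgb
    exact (h3 g hg ⟨B, fun x => by
      have h7 := hB x
      have h8 : 0 ≤ B := (abs_nonneg _).trans h7
      nlinarith [mul_nonneg h8 (sq_nonneg ‖x‖)]⟩).2) u
  convert h4

/-- **powers of primes with almost all exponents** -/
theorem prime_law {μ : ProbabilityMeasure ℝ} (hX : Ctx E af φ)
    (hμ : ∀ t : ℝ, Tendsto (fun K => mK af φ K t) atTop (𝓝 (charFun (μ : Measure ℝ) t)))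
    (hat : ∀ x : ℝ, (μ : Measure ℝ) {x} = 0) (h : Fin r → ℝ) (s : Fin r → Fin k) (D : Fin k → ℕ) (hD : ∀ j, 1 ≤ D j) :
    ∀ᵐ c : Fin k → ℝ, Ok 1 h s D c → HL E (lawW E af φ (Wp h s D)) (pw (fun n => ((Nat.nth Nat.Prime n : ℕ) : ℝ)) h s c) := by
  have hinf := Nat.infinite_setOfPred_prime
  have hgap : ∀ n : ℕ, ((Nat.nth Nat.Prime n : ℕ) : ℝ) + 1 ≤ ((Nat.nth Nat.Prime (n + 1) : ℕ) : ℝ) := by
    intro n
    have : Nat.nth Nat.Prime n < Nat.nth Nat.Prime (n + 1) := (Nat.nth_strictMono hinf) (Nat.lt_succ_self n)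
    exact_mod_cast this
  have hall : ∀ᵐ c : Fin k → ℝ, ∀ m : ℕ, Ok (1 - 1 / ((m:ℝ) + 1)) h s D c →
      HL E (lawW E af φ (Wp h s D)) (pw (fun n => ((Nat.nth Nat.Prime n : ℕ) : ℝ)) h s c) := by
    rw [ae_all_iff]
    intro m
    have hm0 : (0:ℝ) < (m:ℝ) + 1 := by positivity
    have hm1 : 1 / ((m:ℝ) + 1) ≤ 1 := by
      rw [div_le_one hm0]
      have : (0:ℝ) ≤ m := Nat.cast_nonneg m
      linarith
    have hm2 : 0 < 1 / ((m:ℝ) + 1) := by positivity
    exact pow_law hX hμ hat (G := 1) one_pos hgap (by linarith) (by linarith) (prime_grow (by linarith)) h s D hD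
  filter_upwards [hall] with c hc hcc
  have h1 : ∀ j, ∀ᶠ m : ℕ in atTop, (D j : ℝ) < c j + (1 - 1 / ((m:ℝ) + 1)) := by
    intro j
    have h2 : Tendsto (fun m : ℕ => c j + (1 - 1 / ((m:ℝ) + 1))) atTop (𝓝 (c j + (1 - 0))) :=
      (tendsto_one_div_add_atTop_nhds_zero_nat.const_sub 1).const_add _
    rw [sub_zero] at h2
    exact h2.eventually (lt_mem_nhds (hcc j).1)
  obtain ⟨m, hm⟩ := (eventually_all.mpr h1).exists
  exact hc m fun j => ⟨hm j, (hcc j).2⟩

/-- three shifts, quadratic case: a shift outside of the field of the frequencies -/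
lemma Wp_three {h : ℝ} (hh : ∀ a b : ℕ →₀ ℤ, frq b ≠ 0 → h ≠ frq a / frq b) :
    (Wp ![0, 1, h] (fun _ => (0 : Fin 1)) (fun _ => 2) : (Fin 3 → ℕ →₀ ℤ) → Prop) = W0 := by
  classical
  funext a
  apply propext
  constructor
  · intro ha
    have e2 : (Finset.univ.filter fun _ : Fin 3 => (0 : Fin 1) = 0) = Finset.univ :=
      Finset.filter_true_of_mem fun _ _ => rfl
    have h0 := ha 0 0 (by norm_num)
    have h1 := ha 0 1 (by norm_num)
    rw [e2, Fin.sum_univ_three] at h0 h1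
    simp only [pow_zero, mul_one, pow_one, Matrix.cons_val_zero, Matrix.cons_val_one, Matrix.cons_val_two, Matrix.tail_cons,
      Matrix.head_cons, mul_zero, zero_add] at h0 h1
    have h2 : frq (a 2) = 0 := by
      by_contra hne
      have h3 : frq (-a 1) = -frq (a 1) := by
        have := frq_add (a 1) (-a 1)
        rw [add_neg_cancel, frq_zero] at this
        linarith
      apply hh (-a 1) (a 2) hne
      rw [h3, eq_div_iff hne]
      linarith
    intro i
    rw [h2] at h0 h1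
    have h4 : frq (a 1) = 0 := by linarith
    rw [h4] at h0
    have h5 : frq (a 0) = 0 := by linarith
    fin_cases i
    · exact h5
    · exact h4
    · exact h2
  · intro ha j l _
    apply Finset.sum_eq_zero
    intro i _
    rw [ha i, zero_mul]

end

end Pool.Agent.H382.RP
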