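import Pool.Agent.H382.RP.Pw

/-!
# Powers with almost all exponents form a system
-/

set_option autoImplicit false

open MeasureTheory Filter Topology Set
open scoped ENNReal RealInnerProductSpace
open Pool.Agent.H469R2.NK (e norm_e e_add conj_e e_zero)
open Pool.Agent.H383.Gen (U Bd)
open Pool.Agent.Y969.TM
open Pool.Agent.R306.GP
open Pool.Agent.NH20.NC

namespace Pool.Agent.H382.RP

noncomputable section

variable {r k : ℕ} {E : ℝ → ℝ} {af : ℕ → ℝ} {φ : ℝ}

/-- the points `(x_n + h_i) ^ c_{s_i}` -/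
def pw (x : ℕ → ℝ) (h : Fin r → ℝ) (s : Fin r → Fin k) (c : Fin k → ℝ) (n : ℕ) (i : Fin r) : ℝ :=
  (x n + h i) ^ (c (s i))

/-- the exponents which are covered -/
def Ok (τ : ℝ) (h : Fin r → ℝ) (s : Fin r → Fin k) (D : Fin k → ℕ) (c : Fin k → ℝ) : Prop :=
  ∀ j, (D j : ℝ) < c j + τ ∧ (c j < D j ∨
    ((Finset.univ.filter fun i => s i = j).card ≤ D j ∧ ∀ i i', s i = j → s i' = j → h i = h i' → i = i'))

lemma em_lint {Ω : Type*} [MeasurableSpace Ω] [MeasurableSingletonClass Ω] (X : ℕ → Ω) (N : ℕ) (g : Ω → ℝ≥0∞) :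
    ∫⁻ x, g x ∂(R306.GP.em X N) = ((N + 1 : ℕ) : ℝ≥0∞)⁻¹ * ∑ n ∈ Finset.range (N + 1), g (X n) := by
  unfold R306.GP.em
  rw [lintegral_smul_measure, lintegral_finsetSum_measure]
  simp only [lintegral_dirac, smul_eq_mul]

/-- the phases of the frequency vectors with vanishing moments tend to zero -/
lemma phase_lim {x : ℕ → ℝ} {δ τ G : ℝ} (hx : Sx x δ τ G) (h : Fin r → ℝ) (s : Fin r → Fin k) (D : Fin k → ℕ)
    (hD : ∀ j, 1 ≤ D j) {c : Fin k → ℝ} (hc : Ok τ h s D c) {a : Fin r → ℕ →₀ ℤ} (ha : Wp h s D a) :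
    Tendsto (fun n : ℕ => ∑ i, frq (a i) * pw x h s c n i) atTop (𝓝 0) := by
  classical
  have hxt : Tendsto x atTop atTop :=
    tendsto_atTop_mono (fun n => hx.low n) (tendsto_natCast_atTop_atTop.const_mul_atTop hx.dpos)
  have h1 : ∀ j : Fin k, Tendsto (fun n : ℕ => ∑ i ∈ Finset.univ.filter (fun i => s i = j), frq (a i) * (x n + h i) ^ (c j))
      atTop (𝓝 0) := by
    intro j
    rcases (hc j).2 with h2 | ⟨h2, h3⟩
    · exact (phase_zero _ h (fun i => frq (a i)) (hD j) (ha j) h2).comp hxt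
    · have h4 := mom_zero (Finset.univ.filter fun i => s i = j) h (fun i hi i' hi' he => by
        rw [Finset.mem_coe, Finset.mem_filter] at hi hi'
        exact h3 i i' hi.2 hi'.2 he) (fun i => frq (a i)) (fun l hl => ha j l (hl.trans_le h2))
      refine tendsto_const_nhds.congr fun n => ?_
      rw [Finset.sum_eq_zero]
      intro i hi
      rw [h4 i hi, zero_mul]
  have h2 := tendsto_finsetSum (Finset.univ : Finset (Fin k)) fun j _ => h1 j
  rw [Finset.sum_const_zero] at h2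
  refine h2.congr fun n => ?_
  unfold pw
  rw [← Finset.sum_fiberwise Finset.univ s (fun i => frq (a i) * (x n + h i) ^ (c (s i)))]
  apply Finset.sum_congr rfl
  intro j _
  apply Finset.sum_congr rfl
  intro i hi
  rw [(Finset.mem_filter.mp hi).2]

/-- **the powers with almost all exponents form a system** -/
theorem sys_pw (hX : Ctx E af φ) {x : ℕ → ℝ} {δ τ G : ℝ} (hx : Sx x δ τ G) (h : Fin r → ℝ) (s : Fin r → Fin k)
    (D : Fin k → ℕ) (hD : ∀ j, 1 ≤ D j) :
    ∀ᵐ c : Fin k → ℝ, Ok τ h s D c → Sys E af φ (Wp h s D) (R306.GP.em (pw x h s c)) ∧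
      ∀ (i : Fin r) (ε : ℝ), 0 < ε → ∀ᶠ K : ℕ in atTop, ∀ᶠ N : ℕ in atTop,
        ∑ n ∈ Finset.range N, (E (pw x h s c n i) - U af φ (pw x h s c n i) K) ^ 2 ≤ ε * N := by
  classical
  have hw : ∀ᵐ c : Fin k → ℝ, ∀ a : Fin r → ℕ →₀ ℤ, ¬ Wp h s D a → (∀ j, (D j : ℝ) < c j + τ) →
      Tendsto (fun N : ℕ => (∑ n ∈ Finset.range N, e (∑ i, frq (a i) * (x n + h i) ^ (c (s i)))) / (N:ℂ)) atTop (𝓝 0) := by
    rw [ae_all_iff]
    intro a
    by_cases ha : Wp h s D a
    · exact Eventually.of_forall fun c h0 => absurd ha h0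
    · filter_upwards [weyl_k' hx h s D a ha] with c hc _
      exact hc
  have hg : ∀ᵐ c : Fin k → ℝ, ∀ i : Fin r, 1 - τ < c (s i) → ∀ ε : ℝ, 0 < ε →
    ∀ᶠ K : ℕ in atTop, ∀ᶠ N : ℕ in atTop,
      ∑ n ∈ Finset.range N, (E ((x n + h i) ^ (c (s i))) - U af φ ((x n + h i) ^ (c (s i))) K) ^ 2 ≤ ε * N := by
    rw [ae_all_iff]
    intro i
    exact (Measure.tendsto_eval_ae_ae (μ := fun _ : Fin k => (volume : Measure ℝ)) (i := s i)).eventually
      (good2_shift hX hx (h i))
  filter_upwards [hw, hg] with c h1 h2 hc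
  have hA : ∀ (i : Fin r) (ε : ℝ), 0 < ε → ∀ᶠ K : ℕ in atTop, ∀ᶠ N : ℕ in atTop,
        ∑ n ∈ Finset.range N, (E (pw x h s c n i) - U af φ (pw x h s c n i) K) ^ 2 ≤ ε * N := by
    intro i
    apply h2 i
    have h3 := (hc (s i)).1
    have h4 : (1:ℝ) ≤ D (s i) := by exact_mod_cast hD (s i)
    linarith
  refine ⟨⟨fun n => inferInstance, fun a => ?_, fun i ε hε => ?_⟩, hA⟩
  · have key : Tendsto (fun N : ℕ => (∑ n ∈ Finset.range N, chi a (pw x h s c n)) / (N:ℂ)) atTop
        (𝓝 (if Wp h s D a then 1 else 0)) := by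
      by_cases ha : Wp h s D a
      · rw [if_pos ha]
        have h3 := phase_lim hx h s D hD hc ha
        have h4 : Tendsto (fun n : ℕ => chi a (pw x h s c n)) atTop (𝓝 1) := by
          have := (e_continuous.tendsto 0).comp h3
          rw [e_zero] at this
          exact this
        have h5 := h4.cesaro_smul
        refine h5.congr fun N => ?_
        rw [Complex.real_smul, div_eq_inv_mul]
        push_cast
        rfl
      · rw [if_neg ha]
        exact h1 a ha fun j => (hc j).1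
    have h6 := (tendsto_add_atTop_iff_nat 1).mpr key
    refine h6.congr fun N => ?_
    rw [em_integral, Complex.real_smul, div_eq_inv_mul]
    push_cast
    rfl
  · filter_upwards [hA i ε hε] with K hK
    obtain ⟨N0, hN0⟩ := eventually_atTop.mp hK
    filter_upwards [eventually_ge_atTop N0] with N hN
    rw [em_lint]
    have h3 := hN0 (N + 1) (by omega)
    rw [← ENNReal.ofReal_sum_of_nonneg (fun _ _ => sq_nonneg _)]
    have h4 : (0:ℝ) < ((N + 1 : ℕ) : ℝ) := by positivity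
    rw [← ENNReal.ofReal_natCast, ← ENNReal.ofReal_inv_of_pos h4, ← ENNReal.ofReal_mul (by positivity)]
    apply ENNReal.ofReal_le_ofReal
    rw [inv_mul_le_iff₀ h4]
    linarith

end

end Pool.Agent.H382.RP
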