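import Pool.Agent.H382.RP.Dep

/-!
# Consecutive shifts: the law is not a product
-/

set_option autoImplicit false

open MeasureTheory Filter Topology Set
open scoped ENNReal RealInnerProductSpace
open Pool.Agent.H469R2.NK (e norm_e e_add conj_e e_zero)
open Pool.Agent.H383.Gen (U Bd)
open Pool.Agent.Y969.TM
open Pool.Agent.R306.GP
open Pool.Agent.NH20.NC
namespace Pool.Agent.H382.RP

noncomputable section

variable {r k : ℕ} {E : ℝ → ℝ} {af : ℕ → ℝ} {φ : ℝ}

lemma alt_mom {D l : ℕ} (hl : l < D) :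
    ∑ i : Fin (D + 1), ((-1 : ℝ) ^ (i : ℕ) * (D.choose i : ℝ)) * ((i : ℕ) : ℝ) ^ l = 0 := by
  rw [Fin.sum_univ_eq_sum_range (fun i : ℕ => ((-1 : ℝ) ^ i * (D.choose i : ℝ)) * (i : ℝ) ^ l)]
  have h1 : ((fwdDiff (1:ℝ))^[D] (fun x : ℝ => x ^ l)) 0 = 0 := by
    rw [fwdDiff_iter_pow_eq_zero_of_lt hl]
    rfl
  rw [fwdDiff_iter_eq_sum_shift] at h1
  have h2 : ∑ i ∈ Finset.range (D + 1), ((-1 : ℝ) ^ i * (D.choose i : ℝ)) * (i : ℝ) ^ l =
      (-1) ^ D * ∑ k ∈ Finset.range (D + 1), ((-1 : ℤ) ^ (D - k) * D.choose k) • (0 + k • (1:ℝ)) ^ l := by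
    rw [Finset.mul_sum]
    apply Finset.sum_congr rfl
    intro i hi
    have hi' : i ≤ D := by
      have := Finset.mem_range.mp hi
      omega
    rw [zsmul_eq_mul, nsmul_eq_mul]
    push_cast
    have h3 : (-1:ℝ) ^ D * (-1) ^ (D - i) = (-1) ^ i := by
      rw [← pow_add]
      have h4 : D + (D - i) = 2 * (D - i) + i := by omega
      rw [h4, pow_add, pow_mul]
      simp
    calc (-1 : ℝ) ^ i * (D.choose i : ℝ) * (i : ℝ) ^ l = ((-1:ℝ) ^ D * (-1) ^ (D - i)) * (D.choose i : ℝ) * (i : ℝ) ^ l := by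
          rw [h3]
      _ = _ := by ring
  rw [h2, h1, mul_zero]

/-- consecutive shifts -/
def cs (D : ℕ) : Fin (D + 1) → ℝ := fun i => ((i : ℕ) : ℝ)

lemma Wp_cs {D : ℕ} {a : Fin (D + 1) → ℕ →₀ ℤ} :
    Wp (cs D) (fun _ => (0 : Fin 1)) (fun _ => D) a ↔
      ∀ i : Fin (D + 1), frq (a i) = (-1) ^ (i : ℕ) * (D.choose i : ℝ) * frq (a 0) := by
  classical
  constructor
  · intro ha
    have hf : ∀ l < D, ∑ i : Fin (D + 1), frq (a i) * ((i : ℕ) : ℝ) ^ l = 0 := by
      intro l hl
      have := ha 0 l hl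
      simpa [cs] using this
    set w : Fin (D + 1) → ℝ := fun i => frq (a i) - (-1) ^ (i : ℕ) * (D.choose i : ℝ) * frq (a 0) with hw
    have hw0 : w 0 = 0 := by simp [hw]
    have h1 : ∀ l < (Finset.univ.erase (0 : Fin (D + 1))).card,
        ∑ i ∈ Finset.univ.erase (0 : Fin (D + 1)), w i * cs D i ^ l = 0 := by
      intro l hl
      have hl' : l < D := by
        rw [Finset.card_erase_of_mem (Finset.mem_univ _), Finset.card_univ, Fintype.card_fin] at hl
        omega
      have h2 := Finset.add_sum_erase Finset.univ (fun i : Fin (D + 1) => w i * cs D i ^ l) (Finset.mem_univ 0)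
      have h3 : ∑ i : Fin (D + 1), w i * cs D i ^ l = 0 := by
        have h4 : ∀ i : Fin (D + 1), w i * cs D i ^ l = frq (a i) * ((i : ℕ) : ℝ) ^ l -
            frq (a 0) * (((-1 : ℝ) ^ (i : ℕ) * (D.choose i : ℝ)) * ((i : ℕ) : ℝ) ^ l) := by
          intro i
          simp only [hw, cs]
          ring
        simp only [h4]
        rw [Finset.sum_sub_distrib, hf l hl', ← Finset.mul_sum, alt_mom hl', mul_zero, sub_zero]
      simp only [hw0, zero_mul, zero_add] at h2
      rw [h2, h3]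
    have h5 := mom_zero (Finset.univ.erase (0 : Fin (D + 1))) (cs D) (fun i _ i' _ he => by
      simp only [cs] at he
      exact Fin.ext (by exact_mod_cast he)) w h1
    intro i
    by_cases hi : i = 0
    · subst hi
      simp
    · have := h5 i (Finset.mem_erase.mpr ⟨hi, Finset.mem_univ _⟩)
      simp only [hw] at this
      linarith
  · intro ha j l hl
    have h1 : ∀ i : Fin (D + 1), frq (a i) * cs D i ^ l =
        frq (a 0) * (((-1 : ℝ) ^ (i : ℕ) * (D.choose i : ℝ)) * ((i : ℕ) : ℝ) ^ l) := by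
      intro i
      rw [ha i]
      simp only [cs]
      ring
    have h2 : Finset.univ.filter (fun _ : Fin (D + 1) => (0 : Fin 1) = j) = Finset.univ := by
      apply Finset.filter_true_of_mem
      intro i _
      exact Subsingleton.elim _ _
    rw [h2]
    simp only [h1]
    rw [← Finset.mul_sum, alt_mom hl, mul_zero]

lemma gen1_Wp (h : Fin r → ℝ) (s : Fin r → Fin k) (D : Fin k → ℕ) (hD : ∀ j, 1 ≤ D j) : Gen1 (Wp h s D) := by
  classical
  intro i b
  have h1 : ∀ (j : Fin k) (l : ℕ), ∑ i' ∈ Finset.univ.filter (fun i' => s i' = j),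
      frq ((Pi.single i b : Fin r → ℕ →₀ ℤ) i') * h i' ^ l = if s i = j then frq b * h i ^ l else 0 := by
    intro j l
    split_ifs with hij
    · rw [Finset.sum_eq_single i]
      · rw [Pi.single_eq_same]
      · intro i' _ hne
        rw [Pi.single_eq_of_ne hne, frq_zero, zero_mul]
      · intro hn
        exact absurd (by simp [hij]) hn
    · apply Finset.sum_eq_zero
      intro i' hi'
      have hne : i' ≠ i := by
        rintro rfl
        exact hij (Finset.mem_filter.mp hi').2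
      rw [Pi.single_eq_of_ne hne, frq_zero, zero_mul]
  constructor
  · intro hW
    have := hW (s i) 0 (by have := hD (s i); omega)
    rw [h1, if_pos rfl, pow_zero, mul_one] at this
    exact this
  · intro hb j l _
    rw [h1, hb, zero_mul, ite_self]

lemma gen1_W0 : Gen1 (W0 : (Fin r → ℕ →₀ ℤ) → Prop) := by
  classical
  intro i b
  constructor
  · intro h
    have := h i
    rwa [Pi.single_eq_same] at this
  · intro hb j
    by_cases hj : j = i
    · subst hj
      rwa [Pi.single_eq_same]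
    · rw [Pi.single_eq_of_ne hj, frq_zero]

lemma sb_val (b : Bool) : (sb b : ℝ) = 1 ∨ (sb b : ℝ) = -1 := by
  cases b <;> simp [sb]

/-- the products of the coefficients -/
lemma prod_cf {ι : Type*} (S : Finset ι) (af : ℕ → ℝ) (φ : ℝ) (v : ι → ℕ × Bool) :
    ∏ j ∈ S, cf af φ (v j) = ((∏ j ∈ S, (af (v j).1 / 2) : ℝ) : ℂ) *
      Complex.exp (((-(∑ j ∈ S, (sb (v j).2 : ℝ)) * φ : ℝ) : ℂ) * Complex.I) := by
  classical
  induction S using Finset.induction_on with
  | empty => simp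
  | insert a S ha ih =>
    rw [Finset.prod_insert ha, Finset.prod_insert ha, Finset.sum_insert ha, ih]
    unfold cf
    have h1 : ((-((sb (v a).2 : ℝ) + ∑ j ∈ S, (sb (v j).2 : ℝ)) * φ : ℝ) : ℂ) * Complex.I =
        ((-(sb (v a).2 : ℝ) * φ : ℝ) : ℂ) * Complex.I + ((-(∑ j ∈ S, (sb (v j).2 : ℝ)) * φ : ℝ) : ℂ) * Complex.I := by
      push_cast
      ring
    rw [h1, Complex.exp_add]
    push_cast
    ring

lemma exp_re (t : ℝ) : (Complex.exp ((t : ℂ) * Complex.I)).re = Real.cos t := by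
  rw [Complex.exp_ofReal_mul_I_re]

/-- the alternating sum of the signs -/
def sgs (D : ℕ) : ℝ := ∑ j : Fin (D + 1), (-1 : ℝ) ^ (j : ℕ)

lemma sgs_val (D : ℕ) : sgs D = 0 ∨ sgs D = 1 := by
  unfold sgs
  rw [Fin.sum_univ_eq_sum_range (fun i : ℕ => (-1 : ℝ) ^ i)]
  induction D with
  | zero => right; simp
  | succ D ih =>
    rw [Finset.sum_range_succ]
    have h1 : ∀ m : ℕ, ∑ i ∈ Finset.range (m + 1), (-1:ℝ) ^ i = if Even m then 1 else 0 := by
      intro m
      induction m with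
      | zero => simp
      | succ m ihm =>
        rw [Finset.sum_range_succ, ihm]
        by_cases hm : Even m
        · have : ¬ Even (m + 1) := by
            rw [Nat.even_add_one]
            exact not_not.mpr hm
          rw [if_pos hm, if_neg this, pow_succ, hm.neg_one_pow]
          norm_num
        · have : Even (m + 1) := by
            rw [Nat.even_add_one]
            exact hm
          rw [if_neg hm, if_pos this, this.neg_one_pow]
          norm_num
    rw [h1]
    by_cases hD : Even D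
    · left
      rw [if_pos hD, pow_succ, hD.neg_one_pow]
      norm_num
    · right
      have h2 : Even (D + 1) := by
        rw [Nat.even_add_one]
        exact hD
      rw [if_neg hD, h2.neg_one_pow]
      norm_num

lemma frq_one (y : ℕ × Bool) : frq (Finsupp.single y.1 (sb y.2)) = (sb y.2 : ℝ) * √(y.1 : ℝ) := frq_single _ _

/-- the terms of zero frequency for consecutive shifts -/
lemma cs_signs {D K : ℕ} {v : Fin (D + 1) → ℕ × Bool} (hv : v ∈ Fintype.piFinset (fun _ : Fin (D + 1) => JS K))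
    (hW : Wp (cs D) (fun _ => (0 : Fin 1)) (fun _ => D) (fun j => Finsupp.single (v j).1 (sb (v j).2))) :
    ∑ j, (sb (v j).2 : ℝ) = (sb (v 0).2 : ℝ) * sgs D := by
  rw [Wp_cs] at hW
  have hm : ∀ j, 0 < √((v j).1 : ℝ) := by
    intro j
    have h1 := Fintype.mem_piFinset.mp hv j
    unfold JS at h1
    rw [Finset.mem_product, Finset.mem_Icc] at h1
    apply Real.sqrt_pos.mpr
    exact_mod_cast h1.1.1
  have key : ∀ j : Fin (D + 1), (sb (v j).2 : ℝ) = (sb (v 0).2 : ℝ) * (-1) ^ (j : ℕ) := by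
    intro j
    have h1 := hW j
    rw [frq_one, frq_one] at h1
    have hC : (0:ℝ) < (D.choose j : ℝ) := by
      have := Nat.choose_pos (n := D) (k := j) (by have := j.2; omega)
      exact_mod_cast this
    have h2 := hm j
    have h3 := hm 0
    have h4 : 0 < (D.choose j : ℝ) * √((v 0).1 : ℝ) := by positivity
    rcases sb_val (v j).2 with h5 | h5 <;> rcases sb_val (v 0).2 with h6 | h6 <;>
      rcases neg_one_pow_eq_or ℝ (j : ℕ) with h7 | h7 <;> rw [h5, h6, h7] at h1 ⊢ <;> nlinarith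
  unfold sgs
  rw [Finset.mul_sum]
  exact Finset.sum_congr rfl fun j _ => key j

/-- lower bounds for the mean of the product -/
theorem sk_lower {D : ℕ} (hφ : Real.cos φ ≠ 0) (ha : ∀ m, 0 ≤ af m) (hsq : ∀ q : ℕ, 1 ≤ q → 0 < af (q ^ 2)) :
    ∃ c0 : ℝ, 0 < c0 ∧ ∃ K0 : ℕ, ∀ K : ℕ, K0 ≤ K →
      c0 ≤ |(SK (Wp (cs D) (fun _ => (0 : Fin 1)) (fun _ => D)) af φ K).re| := by
  classical
  set g : (Fin (D + 1) → ℕ × Bool) → ℝ := fun v => ∏ j, (af (v j).1 / 2) with hg
  have hg0 : ∀ v, 0 ≤ g v := fun v => Finset.prod_nonneg fun j _ => div_nonneg (ha _) (by norm_num)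
  have hcos : Real.cos (sgs D * φ) ≠ 0 := by
    rcases sgs_val D with h | h <;> rw [h]
    · simp
    · rwa [one_mul]
  set v0 : Fin (D + 1) → ℕ × Bool := fun j => ((D.choose j) ^ 2, decide (Even (j : ℕ))) with hv0
  have hchoose : ∀ j : Fin (D + 1), 1 ≤ D.choose j := fun j => Nat.choose_pos (by have := j.2; omega)
  have hgv0 : 0 < g v0 := by
    apply Finset.prod_pos
    intro j _
    exact div_pos (hsq _ (hchoose j)) (by norm_num)
  refine ⟨|Real.cos (sgs D * φ)| * g v0, mul_pos (abs_pos.mpr hcos) hgv0, 2 ^ D, fun K hK => ?_⟩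
  have h1 : (SK (Wp (cs D) (fun _ => (0 : Fin 1)) (fun _ => D)) af φ K).re = Real.cos (sgs D * φ) *
      ∑ v ∈ (Fintype.piFinset (fun _ : Fin (D + 1) => JS K)).filter
        (fun v => Wp (cs D) (fun _ => (0 : Fin 1)) (fun _ => D) (fun j => Finsupp.single (v j).1 (sb (v j).2))), g v := by
    unfold SK
    rw [Complex.re_sum, Finset.sum_filter, Finset.mul_sum]
    apply Finset.sum_congr rfl
    intro v hv
    by_cases hW : Wp (cs D) (fun _ => (0 : Fin 1)) (fun _ => D) (fun j => Finsupp.single (v j).1 (sb (v j).2))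
    · rw [if_pos hW, if_pos hW, mul_one, prod_cf, Complex.re_ofReal_mul, exp_re, cs_signs hv hW, mul_comm]
      congr 1
      rcases sb_val (v 0).2 with h5 | h5
      · rw [h5, ← Real.cos_neg]
        congr 1
        ring
      · rw [h5]
        congr 1
        ring
    · rw [if_neg hW, if_neg hW, mul_zero, mul_zero, Complex.zero_re]
  have hv0m : v0 ∈ (Fintype.piFinset (fun _ : Fin (D + 1) => JS K)).filter
        (fun v => Wp (cs D) (fun _ => (0 : Fin 1)) (fun _ => D) (fun j => Finsupp.single (v j).1 (sb (v j).2))) := by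
    rw [Finset.mem_filter, Fintype.mem_piFinset]
    constructor
    · intro j
      unfold JS
      rw [Finset.mem_product, Finset.mem_Icc]
      refine ⟨⟨Nat.one_le_pow _ _ (hchoose j), ?_⟩, Finset.mem_univ _⟩
      exact Nat.pow_le_pow_left ((Nat.choose_le_two_pow _ _).trans hK) 2
    · rw [Wp_cs]
      have h2 : ∀ j : Fin (D + 1), frq (Finsupp.single (v0 j).1 (sb (v0 j).2)) = (-1) ^ (j : ℕ) * (D.choose j : ℝ) := by
        intro j
        rw [frq_one]
        have h3 : √(((v0 j).1 : ℕ) : ℝ) = (D.choose j : ℝ) := by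
          simp only [hv0]
          push_cast
          exact Real.sqrt_sq (Nat.cast_nonneg _)
        have h4 : (sb (v0 j).2 : ℝ) = (-1) ^ (j : ℕ) := by
          simp only [hv0, sb]
          by_cases he : Even (j : ℕ)
          · rw [he.neg_one_pow]
            simp [he]
          · rw [(Nat.not_even_iff_odd.mp he).neg_one_pow]
            simp [he]
        rw [h3, h4]
      intro j
      rw [h2 j, h2 0]
      simp
  rw [h1, abs_mul]
  apply mul_le_mul_of_nonneg_left _ (abs_nonneg _)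
  refine le_trans ?_ (le_abs_self _)
  exact Finset.single_le_sum (f := g) (fun v _ => hg0 v) hv0m

/-- the means of the truncations tend to zero -/
lemma clamp_mean {μ : ProbabilityMeasure ℝ} (hX : Ctx E af φ) (hBd : Bd af)
    (hμ : ∀ t : ℝ, Tendsto (fun K => mK af φ K t) atTop (𝓝 (charFun (μ : Measure ℝ) t))) :
    ∃ C : ℝ, 0 ≤ C ∧ ∀ T : ℝ, 1 ≤ T → |∫ x, clamp T x ∂(μ : Measure ℝ)| ≤ C / T := by
  classical
  set h : Fin 1 → ℝ := fun _ => 0 with hh
  set s : Fin 1 → Fin 1 := fun _ => 0 with hs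
  set D : Fin 1 → ℕ := fun _ => 3 with hD
  have hW : (Wp h s D : (Fin 1 → ℕ →₀ ℤ) → Prop) = W0 := by
    funext a
    apply propext
    constructor
    · intro ha i
      have := ha 0 0 (by simp [hD])
      simp [hs] at this
      rw [Subsingleton.elim i 0]
      exact this
    · intro ha j l _
      apply Finset.sum_eq_zero
      intro i _
      rw [ha i, zero_mul]
  obtain ⟨c, h1, hc⟩ := exists_box D (sys_pw hX Sx_nat h s D (fun _ => by simp [hD]))
  obtain ⟨h3, -⟩ := h1 (ok_box hc)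
  rw [hW] at h3
  obtain ⟨C, hC, key⟩ := sk_close hX.meas le_rfl hBd h3 gen1_W0
  refine ⟨C, hC, fun T hT => ?_⟩
  have e1 : ∀ K, SK (W0 : (Fin 1 → ℕ →₀ ℤ) → Prop) af φ K = 0 := by
    intro K
    unfold SK
    apply Finset.sum_eq_zero
    intro v hv
    rw [if_neg, mul_zero]
    intro h4
    have h5 := h4 0
    rw [frq_one] at h5
    have h6 := Fintype.mem_piFinset.mp hv 0
    unfold JS at h6
    rw [Finset.mem_product, Finset.mem_Icc] at h6
    have h7 : 0 < √((v 0).1 : ℝ) := by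
      apply Real.sqrt_pos.mpr
      exact_mod_cast h6.1.1
    rcases sb_val (v 0).2 with h8 | h8 <;> rw [h8] at h5 <;> linarith
  have e2 : ∫ x, ∏ j, clamp T (x j) ∂(lawW E af φ (W0 : (Fin 1 → ℕ →₀ ℤ) → Prop) : Measure (Fin 1 → ℝ)) =
      ∫ x, clamp T x ∂(μ : Measure ℝ) := by
    rw [law_prod hX hμ, integral_fintype_prod_eq_prod (𝕜 := ℝ) (fun _ : Fin 1 => clamp T)]
    simp
  apply le_of_forall_pos_le_add
  intro ε hε
  obtain ⟨K, hK⟩ := (key T hT ε hε).exists
  rw [e2, e1, Complex.zero_re, sub_zero] at hK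
  linarith

/-- **the law of consecutive shifts is not a product** -/
theorem not_prod {μ : ProbabilityMeasure ℝ} (hX : Ctx E af φ) (hBd : Bd af)
    (hμ : ∀ t : ℝ, Tendsto (fun K => mK af φ K t) atTop (𝓝 (charFun (μ : Measure ℝ) t)))
    (hφ : Real.cos φ ≠ 0) (ha : ∀ m, 0 ≤ af m) (hsq : ∀ q : ℕ, 1 ≤ q → 0 < af (q ^ 2)) {D : ℕ} (hD : 1 ≤ D) :
    (lawW E af φ (Wp (cs D) (fun _ => (0 : Fin 1)) (fun _ => D)) : Measure (Fin (D + 1) → ℝ)) ≠
      Measure.pi fun _ : Fin (D + 1) => (μ : Measure ℝ) := by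
  intro heq
  obtain ⟨c, h1, hc⟩ := exists_box (fun _ : Fin 1 => D) (sys_pw hX Sx_nat (cs D) (fun _ => (0 : Fin 1)) (fun _ => D) (fun _ => hD))
  obtain ⟨h3, -⟩ := h1 (ok_box hc)
  obtain ⟨C, hC, key⟩ := sk_close hX.meas (by omega) hBd h3 (gen1_Wp _ _ _ (fun _ => hD))
  obtain ⟨C', hC', key'⟩ := clamp_mean hX hBd hμ
  obtain ⟨c0, hc0, K0, hK0⟩ := sk_lower (D := D) hφ ha hsq
  have e2 : ∀ T : ℝ, ∫ x, ∏ j, clamp T (x j) ∂(lawW E af φ (Wp (cs D) (fun _ => (0 : Fin 1)) (fun _ => D)) : Measure (Fin (D + 1) → ℝ)) =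
      (∫ x, clamp T x ∂(μ : Measure ℝ)) ^ (D + 1) := by
    intro T
    rw [heq, integral_fintype_prod_eq_prod (𝕜 := ℝ) (fun _ : Fin (D + 1) => clamp T)]
    simp
  -- choose `T`
  have t1 : Tendsto (fun T : ℝ => C / T) atTop (𝓝 0) := tendsto_const_nhds.div_atTop tendsto_id
  have t2 : Tendsto (fun T : ℝ => (C' / T) ^ (D + 1)) atTop (𝓝 0) := by
    have t3 : Tendsto (fun T : ℝ => C' / T) atTop (𝓝 0) := tendsto_const_nhds.div_atTop tendsto_id
    have t4 := t3.pow (D + 1)
    rwa [zero_pow (by omega)] at t4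
  obtain ⟨T, ⟨hT1, hT2⟩, hT3⟩ := (((t1.eventually (gt_mem_nhds (by positivity : (0:ℝ) < c0 / 4))).and
    (t2.eventually (gt_mem_nhds (by positivity : (0:ℝ) < c0 / 4)))).and (eventually_ge_atTop 1)).exists
  obtain ⟨K, hK1, hK2⟩ := ((key T hT3 (c0 / 4) (by positivity)).and (eventually_ge_atTop K0)).exists
  rw [e2] at hK1
  have h4 := hK0 K hK2
  have h5 : |(∫ x, clamp T x ∂(μ : Measure ℝ)) ^ (D + 1)| ≤ (C' / T) ^ (D + 1) := by
    rw [abs_pow]
    exact pow_le_pow_left₀ (abs_nonneg _) (key' T hT3) _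
  set A : ℝ := (SK (Wp (cs D) (fun _ => (0 : Fin 1)) (fun _ => D)) af φ K).re with hA
  set B : ℝ := (∫ x, clamp T x ∂(μ : Measure ℝ)) ^ (D + 1) with hB
  have h6 : |A| ≤ |B| + |B - A| := by
    have h7 : A = B - (B - A) := by ring
    calc |A| = |B - (B - A)| := by rw [← h7]
      _ ≤ |B| + |B - A| := abs_sub _ _
  linarith

end

end Pool.Agent.H382.RP
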