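import Pool.Agent.H382.RP.Sys

/-!
# The joint limit law of the error terms
-/

set_option autoImplicit false

open MeasureTheory Filter Topology Set
open scoped ENNReal RealInnerProductSpace
open Pool.Agent.H469R2.NK (e norm_e e_add conj_e e_zero)
open Pool.Agent.H383.Gen (U Bd)
open Pool.Agent.Y969.TM
open Pool.Agent.R306.GP

namespace Pool.Agent.H382.RP

noncomputable section

variable {r : ℕ} {E : ℝ → ℝ} {af : ℕ → ℝ} {φ : ℝ} {W : (Fin r → ℕ →₀ ℤ) → Prop} {ρ : ℕ → Measure (Fin r → ℝ)}

lemma apx_real (hE : Measurable E) (h : Sys E af φ W ρ) (i : Fin r) {ε : ℝ} (hε : 0 < ε) :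
    ∀ᶠ K : ℕ in atTop, ∀ᶠ n : ℕ in atTop, Integrable (fun R => (E (R i) - U af φ (R i) K) ^ 2) (ρ n) ∧
      ∫ R, (E (R i) - U af φ (R i) K) ^ 2 ∂(ρ n) ≤ ε := by
  filter_upwards [h.apx i ε hε] with K hK
  filter_upwards [hK] with n hn
  have hm : Measurable fun R : Fin r → ℝ => (E (R i) - U af φ (R i) K) ^ 2 :=
    ((hE.comp (measurable_pi_apply i)).sub ((U_cont af φ K).measurable.comp (measurable_pi_apply i))).pow_const 2
  have hi : Integrable (fun R => (E (R i) - U af φ (R i) K) ^ 2) (ρ n) := by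
    refine ⟨hm.aestronglyMeasurable, ?_⟩
    rw [hasFiniteIntegral_iff_ofReal (Eventually.of_forall fun x => sq_nonneg _)]
    exact lt_of_le_of_lt hn ENNReal.ofReal_lt_top
  refine ⟨hi, ?_⟩
  rw [← ofReal_integral_eq_lintegral_ofReal hi (Eventually.of_forall fun x => sq_nonneg _)] at hn
  exact (ENNReal.ofReal_le_ofReal_iff hε.le).mp hn

/-- linear forms in the error terms -/
def linE (E : ℝ → ℝ) (t : Fin r → ℝ) (R : Fin r → ℝ) : ℝ := ∑ i, t i * E (R i)

lemma linE_meas (hE : Measurable E) (t : Fin r → ℝ) : Measurable (linE E t) := by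
  unfold linE
  exact Finset.measurable_sum _ fun i _ => (hE.comp (measurable_pi_apply i)).const_mul _

lemma amgm {η v : ℝ} (hη : 0 < η) : |v| ≤ η + η⁻¹ * v ^ 2 := by
  rcases le_total |v| η with h8 | h8
  · have : 0 ≤ η⁻¹ * v ^ 2 := by positivity
    linarith
  · have h9 : η⁻¹ * v ^ 2 = |v| * (|v| / η) := by
      rw [← sq_abs]
      field_simp
    have h10 : 1 ≤ |v| / η := by rwa [one_le_div hη]
    rw [h9]
    have := mul_le_mul_of_nonneg_left h10 (abs_nonneg v)
    linarith

lemma exp_int {f : (Fin r → ℝ) → ℝ} (hf : Measurable f) (μ : Measure (Fin r → ℝ)) [IsProbabilityMeasure μ] :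
    Integrable (fun R => Complex.exp (Complex.I * (f R : ℝ))) μ := by
  refine Integrable.of_bound (Complex.measurable_exp.comp ((Complex.measurable_ofReal.comp hf).const_mul _)).aestronglyMeasurable 1
    (Eventually.of_forall fun R => ?_)
  rw [mul_comm, Complex.norm_exp_ofReal_mul_I]

/-- the exponential functions of the error terms -/
lemma exp_E (hE : Measurable E) (h0 : Sys E af φ W ρ) (t : Fin r → ℝ) :
    ∃ l : ℂ, ∀ ρ' : ℕ → Measure (Fin r → ℝ), Sys E af φ W ρ' →
      Tendsto (fun n => ∫ R, Complex.exp (Complex.I * (linE E t R : ℝ)) ∂(ρ' n)) atTop (𝓝 l) := by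
  choose L hL using fun K => exp_lin h0 t K
  refine conv_of_approx (S := fun ρ' => Sys E af φ W ρ') h0 _ L ?_
  intro ρ' hρ' ε hε
  set D : ℝ := ∑ i : Fin r, |t i| + 1 with hD
  have hD0 : 0 < D := by
    have : 0 ≤ ∑ i : Fin r, |t i| := Finset.sum_nonneg fun _ _ => abs_nonneg _
    linarith
  set η : ℝ := ε / (4 * D) with hη
  have hη0 : 0 < η := by positivity
  have h1 : ∀ᶠ K : ℕ in atTop, ∀ i : Fin r, ∀ᶠ n : ℕ in atTop,
      Integrable (fun R => (E (R i) - U af φ (R i) K) ^ 2) (ρ' n) ∧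
      ∫ R, (E (R i) - U af φ (R i) K) ^ 2 ∂(ρ' n) ≤ η ^ 2 :=
    eventually_all.mpr fun i => apx_real hE hρ' i (by positivity)
  filter_upwards [h1] with K hK
  filter_upwards [eventually_all.mpr hK, (Metric.tendsto_nhds.mp (hL K ρ' hρ')) (ε / 2) (by positivity)] with n hn hn2
  have := hρ'.prob n
  rw [dist_eq_norm] at hn2
  have h2 : ‖∫ R, Complex.exp (Complex.I * (linE E t R : ℝ)) ∂(ρ' n) -
      ∫ R, Complex.exp (Complex.I * (lin af φ t K R : ℝ)) ∂(ρ' n)‖ ≤ ε / 2 := by
    rw [← integral_sub (exp_int (linE_meas hE t) _) (exp_int (lin_cont af φ t K).measurable _)]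
    have hint1 : ∀ i ∈ (Finset.univ : Finset (Fin r)),
        Integrable (fun R : Fin r → ℝ => |t i| * (η + η⁻¹ * (E (R i) - U af φ (R i) K) ^ 2)) (ρ' n) :=
      fun i _ => ((integrable_const _).add ((hn i).1.const_mul _)).const_mul _
    have hint : Integrable (fun R => ∑ i, |t i| * (η + η⁻¹ * (E (R i) - U af φ (R i) K) ^ 2)) (ρ' n) :=
      integrable_finsetSum _ hint1
    refine (norm_integral_le_of_norm_le hint (Eventually.of_forall fun R => ?_)).trans ?_
    · refine (exp_lip _ _).trans ?_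
      unfold linE lin
      rw [← Finset.sum_sub_distrib]
      refine (Finset.abs_sum_le_sum_abs _ _).trans (Finset.sum_le_sum fun i _ => ?_)
      rw [← mul_sub, abs_mul]
      exact mul_le_mul_of_nonneg_left (amgm hη0) (abs_nonneg _)
    · rw [integral_finsetSum _ hint1]
      calc ∑ i, ∫ R, |t i| * (η + η⁻¹ * (E (R i) - U af φ (R i) K) ^ 2) ∂(ρ' n)
          ≤ ∑ i, |t i| * (η + η⁻¹ * η ^ 2) := by
            apply Finset.sum_le_sum
            intro i _
            rw [integral_const_mul, integral_add (integrable_const _) ((hn i).1.const_mul _), integral_const_mul]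
            simp only [integral_const, probReal_univ, one_smul]
            apply mul_le_mul_of_nonneg_left _ (abs_nonneg _)
            have := mul_le_mul_of_nonneg_left (hn i).2 (by positivity : 0 ≤ η⁻¹)
            linarith
        _ = (∑ i, |t i|) * (2 * η) := by
            rw [Finset.sum_mul]
            apply Finset.sum_congr rfl
            intro i _
            field_simp
            ring
        _ ≤ D * (2 * η) := by
            apply mul_le_mul_of_nonneg_right _ (by positivity)
            rw [hD]; linarith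
        _ = ε / 2 := by rw [hη]; field_simp; ring
  calc ‖∫ R, Complex.exp (Complex.I * (linE E t R : ℝ)) ∂(ρ' n) - L K‖
      ≤ ‖∫ R, Complex.exp (Complex.I * (linE E t R : ℝ)) ∂(ρ' n) -
          ∫ R, Complex.exp (Complex.I * (lin af φ t K R : ℝ)) ∂(ρ' n)‖ +
        ‖∫ R, Complex.exp (Complex.I * (lin af φ t K R : ℝ)) ∂(ρ' n) - L K‖ := norm_sub_le_norm_sub_add_norm_sub _ _ _
    _ ≤ ε / 2 + ε / 2 := add_le_add h2 hn2.le
    _ = ε := by ring

/-- first moments -/
lemma mom_E (hE : Measurable E) (h : Sys E af φ W ρ) : ∃ C : ℝ, 0 ≤ C ∧ ∀ᶠ n : ℕ in atTop, ∀ i : Fin r,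
    Integrable (fun R => |E (R i)|) (ρ n) ∧ ∫ R, |E (R i)| ∂(ρ n) ≤ C := by
  have h1 : ∀ᶠ K : ℕ in atTop, ∀ i : Fin r, ∀ᶠ n : ℕ in atTop,
      Integrable (fun R => (E (R i) - U af φ (R i) K) ^ 2) (ρ n) ∧
      ∫ R, (E (R i) - U af φ (R i) K) ^ 2 ∂(ρ n) ≤ 1 :=
    eventually_all.mpr fun i => apx_real hE h i one_pos
  obtain ⟨K, hK⟩ := h1.exists
  refine ⟨2 + AA af K, by have := AA_nonneg af K; positivity, ?_⟩
  filter_upwards [eventually_all.mpr hK] with n hn i
  have := h.prob n
  obtain ⟨g1, g2⟩ := hn i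
  have hb : ∀ R : Fin r → ℝ, |E (R i)| ≤ (1 + AA af K) + (E (R i) - U af φ (R i) K) ^ 2 := by
    intro R
    have k1 := amgm (η := 1) (v := E (R i) - U af φ (R i) K) one_pos
    have k2 : |U af φ (R i) K| ≤ AA af K := by
      unfold U AA
      refine (Finset.abs_sum_le_sum_abs _ _).trans (Finset.sum_le_sum fun m _ => ?_)
      rw [abs_mul]
      exact mul_le_of_le_one_right (abs_nonneg _) (Real.abs_cos_le_one _)
    have k3 := abs_add_le (E (R i) - U af φ (R i) K) (U af φ (R i) K)
    rw [sub_add_cancel] at k3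
    simp only [inv_one, one_mul] at k1
    linarith
  have hi : Integrable (fun R => (1 + AA af K) + (E (R i) - U af φ (R i) K) ^ 2) (ρ n) := (integrable_const _).add g1
  have hi2 : Integrable (fun R => |E (R i)|) (ρ n) := by
    refine hi.mono' (hE.comp (measurable_pi_apply i)).abs.aestronglyMeasurable (Eventually.of_forall fun R => ?_)
    rw [Real.norm_eq_abs, abs_abs]
    exact hb R
  refine ⟨hi2, (integral_mono hi2 hi hb).trans ?_⟩
  rw [integral_add (integrable_const _) g1]
  simp only [integral_const, probReal_univ, one_smul]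
  linarith

/-- **the law** -/
theorem law_exists (hE : Measurable E) (h0 : Sys E af φ W ρ) : ∃ ν : ProbabilityMeasure (Fin r → ℝ),
    ∀ ρ' : ℕ → Measure (Fin r → ℝ), Sys E af φ W ρ' → ∀ g : (Fin r → ℝ) → ℝ, Continuous g → (∃ B, ∀ x, |g x| ≤ B) →
      Tendsto (fun n => ∫ R, g (fun i => E (R i)) ∂(ρ' n)) atTop (𝓝 (∫ x, g x ∂(ν : Measure (Fin r → ℝ)))) := by
  choose L hL using fun t => exp_E hE h0 t
  set M : (Fin r → ℝ) → EuclideanSpace ℝ (Fin r) := fun R => WithLp.toLp 2 (fun i => E (R i)) with hM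
  have hmeasL : Measurable (WithLp.toLp 2 : (Fin r → ℝ) → EuclideanSpace ℝ (Fin r)) :=
    (MeasurableEquiv.toLp 2 (Fin r → ℝ)).measurable
  have hMm : Measurable M := hmeasL.comp (measurable_pi_lambda _ fun i => hE.comp (measurable_pi_apply i))
  have hP : ∀ {ρ' : ℕ → Measure (Fin r → ℝ)}, Sys E af φ W ρ' → ∀ n, IsProbabilityMeasure ((ρ' n).map M) := by
    intro ρ' hρ' n
    have := hρ'.prob n
    exact Measure.isProbabilityMeasure_map hMm.aemeasurable
  have hchar : ∀ (μ : Measure (Fin r → ℝ)) (t : EuclideanSpace ℝ (Fin r)), charFun (μ.map M) t =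
      ∫ R, Complex.exp (Complex.I * (linE E (fun i => t i) R : ℝ)) ∂μ := by
    intro μ t
    rw [charFun_apply, integral_map hMm.aemeasurable (by fun_prop)]
    apply integral_congr_ae
    refine Eventually.of_forall fun R => ?_
    show Complex.exp _ = Complex.exp _
    congr 1
    rw [PiLp.inner_apply]
    unfold linE
    push_cast
    rw [mul_comm]
    congr 1
    apply Finset.sum_congr rfl
    intro j _
    simp only [hM, RCLike.inner_apply, conj_trivial]
    push_cast
    ring
  have hconv : ∀ {ρ' : ℕ → Measure (Fin r → ℝ)}, Sys E af φ W ρ' → ∀ t : EuclideanSpace ℝ (Fin r),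
      Tendsto (fun n => charFun ((ρ' n).map M) t) atTop (𝓝 (L (fun i => t i))) := by
    intro ρ' hρ' t
    simp only [hchar]
    exact hL _ ρ' hρ'
  -- continuity at zero
  obtain ⟨C, hC0, hC⟩ := mom_E hE h0
  have hbd : ∀ t : EuclideanSpace ℝ (Fin r), ‖L (fun i => t i) - 1‖ ≤ C * ∑ i, |t i| := by
    intro t
    refine le_of_tendsto (((hconv h0 t).sub_const 1).norm) ?_
    filter_upwards [hC] with n hn
    have := h0.prob n
    rw [hchar]
    have e1 : ∫ R, Complex.exp (Complex.I * (linE E (fun i => t i) R : ℝ)) ∂(ρ n) - 1 =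
        ∫ R, (Complex.exp (Complex.I * (linE E (fun i => t i) R : ℝ)) - 1) ∂(ρ n) := by
      rw [integral_sub (exp_int (linE_meas hE _) _) (integrable_const _)]
      simp
    rw [e1]
    have hint : Integrable (fun R => ∑ i, |t i| * |E (R i)|) (ρ n) :=
      integrable_finsetSum _ fun i _ => (hn i).1.const_mul _
    refine (norm_integral_le_of_norm_le hint (Eventually.of_forall fun R => ?_)).trans ?_
    · have h3 := exp_lip (linE E (fun i => t i) R) 0
      simp only [Complex.ofReal_zero, mul_zero, Complex.exp_zero, sub_zero] at h3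
      refine h3.trans ?_
      unfold linE
      refine (Finset.abs_sum_le_sum_abs _ _).trans (le_of_eq ?_)
      exact Finset.sum_congr rfl fun i _ => abs_mul _ _
    · rw [integral_finsetSum _ (fun i _ => (hn i).1.const_mul _), Finset.mul_sum]
      apply Finset.sum_le_sum
      intro i _
      rw [integral_const_mul, mul_comm C]
      exact mul_le_mul_of_nonneg_left (hn i).2 (abs_nonneg _)
  have hcont : ContinuousAt (fun t : EuclideanSpace ℝ (Fin r) => L (fun i => t i)) 0 := by
    have hL0 : L (fun i => (0 : EuclideanSpace ℝ (Fin r)) i) = 1 := by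
      have h3 := hbd 0
      simp only [PiLp.zero_apply, abs_zero, Finset.sum_const_zero, mul_zero] at h3 ⊢
      exact sub_eq_zero.mp (norm_le_zero_iff.mp h3)
    show Tendsto _ _ (𝓝 (L (fun i => (0 : EuclideanSpace ℝ (Fin r)) i)))
    rw [hL0, tendsto_iff_norm_sub_tendsto_zero]
    have hz : Tendsto (fun t : EuclideanSpace ℝ (Fin r) => C * ∑ i, |t i|) (𝓝 0) (𝓝 0) := by
      have : Continuous (fun t : EuclideanSpace ℝ (Fin r) => C * ∑ i, |t i|) := by fun_prop
      have h4 := this.tendsto 0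
      simpa using h4
    exact squeeze_zero (fun _ => norm_nonneg _) hbd hz
  -- compactness
  set μ : ℕ → ProbabilityMeasure (EuclideanSpace ℝ (Fin r)) := fun n => ⟨(ρ n).map M, hP h0 n⟩ with hμ
  have hinst : ∀ n, IsProbabilityMeasure ((fun n => (ρ n).map M) n) := fun n => hP h0 n
  have h_tight : IsTightMeasureSet (Set.range fun n => (ρ n).map M) :=
    isTightMeasureSet_of_tendsto_charFun (μ := fun n => (ρ n).map M) hcont (fun t => hconv h0 t)
  have h_compact : IsCompact (closure (Set.range μ)) := by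
    apply isCompact_closure_of_isTightMeasureSet
    refine h_tight.subset ?_
    rintro _ ⟨_, ⟨n, rfl⟩, rfl⟩
    exact ⟨n, rfl⟩
  set Uf : Ultrafilter ℕ := Ultrafilter.of atTop with hUf
  have hUle : (Uf : Filter ℕ) ≤ atTop := Ultrafilter.of_le atTop
  obtain ⟨ν', -, hν'⟩ := h_compact.ultrafilter_le_nhds (Uf.map μ)
    (.trans (by simp) (monotone_principal subset_closure))
  have hν2 : Tendsto μ Uf (𝓝 ν') := hν'
  have hνchar : ∀ t : EuclideanSpace ℝ (Fin r), charFun (ν' : Measure (EuclideanSpace ℝ (Fin r))) t = L (fun i => t i) := by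
    intro t
    rw [ProbabilityMeasure.tendsto_iff_forall_integral_rclike_tendsto ℂ] at hν2
    have h5 := hν2 (BoundedContinuousFunction.innerProbChar t)
    rw [charFun_eq_integral_innerProbChar]
    refine tendsto_nhds_unique h5 ?_
    have h6 := (hconv h0 t).mono_left hUle
    simp only [charFun_eq_integral_innerProbChar] at h6
    exact h6
  refine ⟨ν'.map (f := WithLp.ofLp) (PiLp.continuous_ofLp 2 _).measurable.aemeasurable, fun ρ' hρ' g hg hb => ?_⟩
  obtain ⟨B, hB⟩ := hb
  set μ' : ℕ → ProbabilityMeasure (EuclideanSpace ℝ (Fin r)) := fun n => ⟨(ρ' n).map M, hP hρ' n⟩ with hμ'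
  have hT : Tendsto μ' atTop (𝓝 ν') := by
    apply ProbabilityMeasure.tendsto_of_tendsto_charFun
    intro t
    rw [hνchar t]
    exact hconv hρ' t
  rw [ProbabilityMeasure.tendsto_iff_forall_integral_tendsto] at hT
  have hgc : Continuous fun x : EuclideanSpace ℝ (Fin r) => g (WithLp.ofLp x) :=
    hg.comp (PiLp.continuous_ofLp 2 _)
  have h3 := hT (BoundedContinuousFunction.ofNormedAddCommGroup (fun x => g (WithLp.ofLp x)) hgc B (fun x => hB _))
  change Tendsto (fun n => ∫ x, g (WithLp.ofLp x) ∂((ρ' n).map M)) atTop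
    (𝓝 (∫ x, g (WithLp.ofLp x) ∂(ν' : Measure (EuclideanSpace ℝ (Fin r))))) at h3
  have e2 : ∀ n, ∫ x, g (WithLp.ofLp x) ∂((ρ' n).map M) = ∫ R, g (fun i => E (R i)) ∂(ρ' n) := by
    intro n
    rw [integral_map hMm.aemeasurable hgc.aestronglyMeasurable]
  have e3 : ∫ x, g x ∂((ν'.map (f := WithLp.ofLp) (PiLp.continuous_ofLp 2 _).measurable.aemeasurable :
      ProbabilityMeasure (Fin r → ℝ)) : Measure (Fin r → ℝ)) = ∫ x, g (WithLp.ofLp x) ∂(ν' : Measure (EuclideanSpace ℝ (Fin r))) := by
    rw [ProbabilityMeasure.toMeasure_map, integral_map (PiLp.continuous_ofLp 2 _).measurable.aemeasurable hg.aestronglyMeasurable]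
  rw [e3]
  simpa only [e2] using h3

end

end Pool.Agent.H382.RP
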