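import Pool.Agent.H382.RP.Law

/-!
# Powers with almost all exponents: all vectors of shifts
-/

set_option autoImplicit false

open MeasureTheory Filter Topology Set
open scoped ENNReal RealInnerProductSpace
open Pool.Agent.H469R2.NK (e norm_e e_add conj_e e_zero)
open Pool.Agent.H383.Gen (U Bd)
open Pool.Agent.Y969.TM
open Pool.Agent.R306.GP
open Pool.Agent.NH20.NC

namespace Pool.Agent.H382.RP

noncomputable section

/-- pairs, general shifts: only the first nonvanishing moment of the frequencies matters -/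
theorem pair_bound' {x : ℕ → ℝ} {δ τ G : ℝ} (hx : Sx x δ τ G) {ι : Type*} (S : Finset ι) (h : ι → ℝ)
    (ω : ι → ℝ) {i0 : ℕ} (hz : ∀ l < i0, ∑ i ∈ S, ω i * h i ^ l = 0) (hb : ∑ i ∈ S, ω i * h i ^ i0 ≠ 0)
    {c d : ℝ} (hc : (i0 : ℝ) + 1 < c + τ) (hcd : c ≤ d) :
    ∃ κ L : ℝ, 0 < κ ∧ κ ≤ 1 ∧ 0 < L ∧ ∃ n0 : ℕ, 1 ≤ n0 ∧ (∀ n, n0 ≤ n → ∀ i ∈ S, 0 < x n + h i) ∧
      ∀ n m : ℕ, n0 ≤ n → n < m →
      ‖∫ y in c..d, e (∑ i ∈ S, ω i * (x m + h i) ^ y - ∑ i ∈ S, ω i * (x n + h i) ^ y)‖ ≤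
        L * (m:ℝ) ^ (1 - κ) / (m - n) := by
  classical
  have hi0c : 1 - τ < c - i0 := by linarith
  have hi0c' : (i0:ℝ) < c := by linarith [hx.tau1]
  obtain ⟨σ, c2, C3, t0, hσ, hc2, hC3, ht0, hpos, hlow, hup⟩ := low_up S h ω hz hb d hi0c'
  set θ := c - i0 with hθ
  have hθ0 : 0 < θ := by rw [hθ]; linarith
  obtain ⟨n0, hn0⟩ := hx.large t0
  have hdc : 0 ≤ d - c := by linarith
  obtain ⟨κ, L, hκ, hκ1, hL, htr⟩ := hx.trade hi0c (D := C3 * (d - c)) (by positivity)
  refine ⟨κ, L * (1 + θ) / (c2 * δ), hκ, hκ1, by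
    have := hx.dpos
    positivity, max n0 1, le_max_right _ _, fun n hn i hi => hpos _ (hn0 n ((le_max_left _ _).trans hn)) i hi, ?_⟩
  intro n m hn hnm
  have hnr : t0 ≤ x n := hn0 n ((le_max_left _ _).trans hn)
  have hmn : (n:ℝ) < m := by exact_mod_cast hnm
  have hsep := hx.sep hnm.le
  have hδ := hx.dpos
  have h3 : 0 < (m:ℝ) - n := by linarith
  have hnmr : x n < x m := by
    have := mul_pos hδ h3
    linarith
  have h1 := phase_core hcd (f0 := fun t y => ∑ i ∈ S, ω i * (t + h i) ^ y)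
    (f1 := fun t y => ∑ i ∈ S, ω i * fam 0 y 0 1 0 (t + h i)) (f2 := fun t y => ∑ i ∈ S, ω i * fam 0 y 1 0 0 (t + h i))
    (g1 := fun t y => ∑ i ∈ S, ω i * fam 1 y 0 1 0 (t + h i)) (g2 := fun t y => ∑ i ∈ S, ω i * fam 1 y 1 0 0 (t + h i))
    (t0 := t0) (σ := σ) (c2 := c2) (C3 := C3) (θ := θ) (by linarith) hσ hc2 hC3 hθ0
    (fun t ht y _ => HasDerivAt.fun_sum fun i hi => (fam0_y (hpos t ht i hi) y).const_mul (ω i))
    (fun t ht y _ => HasDerivAt.fun_sum fun i hi => (fam1_y (hpos t ht i hi) y).const_mul (ω i))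
    (fun t ht => (continuous_finsetSum _ fun i hi => continuous_const.mul (fam2_y (hpos t ht i hi))).continuousOn)
    (fun t ht y _ => HasDerivAt.fun_sum fun i hi => ((fam_deriv 0 y 0 1 0 (hpos t ht i hi)).comp_add_const t (h i)).const_mul (ω i))
    (fun t ht y _ => HasDerivAt.fun_sum fun i hi => ((fam_deriv 0 y 1 0 0 (hpos t ht i hi)).comp_add_const t (h i)).const_mul (ω i))
    hlow hup hnr hnmr
  refine h1.trans ?_
  have h2 := htr m (by omega)
  have h4 : c2 * (δ * (m - n)) ≤ c2 * (x m - x n) := mul_le_mul_of_nonneg_left (by linarith) hc2.le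
  have h5 : 0 ≤ (2 + C3 * (d - c) * Real.log (x m)) * x m ^ (1 - θ) := by
    have hlog : 0 ≤ Real.log (x m) := Real.log_nonneg (by linarith [hx.three m])
    have := Real.rpow_pos_of_pos (by linarith [hx.three m] : 0 < x m) (1 - θ)
    positivity
  calc (2 + C3 * (d - c) * Real.log (x m)) * x m ^ (1 - θ) * (1 + θ) / (c2 * (x m - x n))
      ≤ (L * (m:ℝ) ^ (1 - κ)) * (1 + θ) / (c2 * (δ * (m - n))) := by
        apply div_le_div₀ (by positivity) _ (by positivity) h4
        exact mul_le_mul_of_nonneg_right h2 (by linarith)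
    _ = _ := by field_simp

/-- Weyl sums on compact intervals -/
theorem weyl_Icc' {x : ℕ → ℝ} {δ τ G : ℝ} (hx : Sx x δ τ G) {ι : Type*} (S : Finset ι) (h : ι → ℝ)
    (ω : ι → ℝ) {D : ℕ} (hω : ∃ l < D, ∑ i ∈ S, ω i * h i ^ l ≠ 0)
    {c d : ℝ} (hc : (D : ℝ) < c + τ) (hcd : c ≤ d) (lam : ℕ → ℝ) :
    ∀ᵐ y ∂(volume.restrict (Icc c d)), Tendsto (fun N : ℕ =>
      (∑ n ∈ Finset.range N, e (∑ i ∈ S, ω i * (x n + h i) ^ y + lam n)) / (N:ℂ)) atTop (𝓝 0) := by
  classical
  set i0 := Nat.find hω with hi0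
  obtain ⟨hlt, hb⟩ := Nat.find_spec hω
  rw [← hi0] at hlt hb
  have hz : ∀ l < i0, ∑ i ∈ S, ω i * h i ^ l = 0 := by
    intro l hl
    by_contra hne
    exact Nat.find_min hω hl ⟨hl.trans hlt, hne⟩
  have hi0D : (i0:ℝ) + 1 ≤ D := by exact_mod_cast hlt
  obtain ⟨κ, L, hκ, hκ1, hL, n0, hn0, hpos, hpair⟩ := pair_bound' hx S h ω hz hb (c := c) (d := d) (by linarith) hcd
  set Ψ : ℕ → ℝ → ℝ := fun n y => ∑ i ∈ S, ω i * (x n + h i) ^ y + lam n with hΨ
  have hcont : ∀ n, n0 ≤ n → Continuous (Ψ n) := by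
    intro n hn
    exact (continuous_finsetSum _ fun i hi => continuous_const.mul
      (Real.continuous_const_rpow (hpos n hn i hi).ne')).add continuous_const
  have hK : ∀ n m : ℕ, n0 ≤ n → n < m → ‖∫ y in c..d, e (Ψ m y - Ψ n y)‖ ≤ L * (m:ℝ) ^ (1 - κ) / (m - n) := by
    intro n m hn hnm
    refine le_trans (le_of_eq ?_) (hpair n m hn hnm)
    have e1 : ∀ y : ℝ, e (Ψ m y - Ψ n y) = e (lam m - lam n) *
        e (∑ i ∈ S, ω i * (x m + h i) ^ y - ∑ i ∈ S, ω i * (x n + h i) ^ y) := by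
      intro y
      rw [← e_add]
      congr 1
      simp only [hΨ]
      ring
    simp only [e1]
    rw [intervalIntegral.integral_const_mul, norm_mul, norm_e, one_mul]
  obtain ⟨p, hp⟩ := exists_nat_ge (4 / κ)
  have hpκ : 2 ≤ p * (κ / 2) := by
    rw [div_le_iff₀ hκ] at hp
    linarith
  have hp0 : (0:ℝ) < p := by
    have : 0 < 4 / κ := by positivity
    linarith
  have hp1 : 1 ≤ p := by exact_mod_cast hp0
  set C := ((d - c) + 2 * L * (1 + 2 / κ)) with hC
  have hC0 : 0 ≤ C := by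
    have : 0 ≤ d - c := by linarith
    positivity
  have hcontS : ∀ m : ℕ, Continuous fun y => (‖∑ n ∈ Finset.Ico n0 (m ^ p), e (Ψ n y)‖ / (m:ℝ) ^ p) ^ 2 := by
    intro m
    refine ((continuous_finsetSum _ fun n hn => ?_).norm.div_const _).pow 2
    exact e_continuous.comp (hcont n (Finset.mem_Ico.mp hn).1)
  have hS : Summable fun m : ℕ => C * (1 / (m:ℝ) ^ 2) :=
    (Real.summable_one_div_nat_pow.mpr (by norm_num)).mul_left _
  have hae := ae_zero' hcd hcontS hS (j0 := 1) ?_ (fun _ _ => sq_nonneg _)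
  · filter_upwards [hae] with y hy
    have h1 := tendsto_of_sq hy
    apply powfill (fun n => (norm_e _).le) hp1
    rw [tendsto_zero_iff_norm_tendsto_zero]
    have h2 : Tendsto (fun m : ℕ => ((n0:ℝ)) / (m:ℝ) ^ p) atTop (𝓝 0) := by
      have h5 : Tendsto (fun m : ℕ => (m:ℝ) ^ p) atTop atTop :=
        (tendsto_pow_atTop (by omega)).comp tendsto_natCast_atTop_atTop
      exact tendsto_const_nhds.div_atTop h5
    have h3 := h1.add h2
    rw [add_zero] at h3
    refine squeeze_zero' (Eventually.of_forall fun _ => norm_nonneg _) ?_ h3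
    filter_upwards [eventually_ge_atTop (n0 + 1)] with m hm
    have hm0 : (0:ℝ) < m := by
      have : 0 < m := by omega
      exact_mod_cast this
    have hnm : n0 ≤ m ^ p := (by omega : n0 ≤ m).trans (Nat.le_self_pow (by omega) m)
    rw [norm_div, norm_pow, Complex.norm_natCast, ← add_div]
    apply div_le_div_of_nonneg_right _ (by positivity)
    rw [Finset.range_eq_Ico, ← Finset.sum_Ico_consecutive _ (Nat.zero_le n0) hnm]
    refine (norm_add_le _ _).trans ?_
    rw [add_comm]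
    apply add_le_add le_rfl
    calc ‖∑ n ∈ Finset.Ico 0 n0, e (∑ i ∈ S, ω i * (x n + h i) ^ y + lam n)‖
        ≤ ∑ n ∈ Finset.Ico 0 n0, ‖e (∑ i ∈ S, ω i * (x n + h i) ^ y + lam n)‖ := norm_sum_le _ _
      _ = n0 := by simp [norm_e]
  · intro m hm
    have hm0 : (0:ℝ) < m := by exact_mod_cast hm
    have hm1 : (1:ℝ) ≤ m := by exact_mod_cast hm
    have h1 := sq_pair hcd hcont hL.le hκ hκ1 hK (N1 := n0) (N2 := m ^ p) le_rfl (Nat.one_le_pow _ _ hm)
    have e1 : ∫ y in c..d, (‖∑ n ∈ Finset.Ico n0 (m ^ p), e (Ψ n y)‖ / (m:ℝ) ^ p) ^ 2 =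
        ((m:ℝ) ^ (2 * p))⁻¹ * ∫ y in c..d, ‖∑ n ∈ Finset.Ico n0 (m ^ p), e (Ψ n y)‖ ^ 2 := by
      rw [← intervalIntegral.integral_const_mul]
      apply intervalIntegral.integral_congr
      intro y _
      have e2 : ∀ x : ℝ, (x / (m:ℝ) ^ p) ^ 2 = ((m:ℝ) ^ (2 * p))⁻¹ * x ^ 2 := by
        intro x
        rw [div_pow, ← pow_mul, div_eq_inv_mul, mul_comm p 2]
      exact e2 _
    rw [e1]
    have e3 : (((m ^ p : ℕ)) : ℝ) ^ (2 - κ / 2) ≤ (m:ℝ) ^ (2 * p) * (1 / (m:ℝ) ^ 2) := by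
      have g1 : (m:ℝ) ^ (2 * p) * (1 / (m:ℝ) ^ 2) = (m:ℝ) ^ (((2 * p : ℕ) : ℝ) - 2) := by
        rw [Real.rpow_sub hm0, Real.rpow_natCast]
        norm_num
        rfl
      rw [g1]
      push_cast
      rw [← Real.rpow_natCast (m:ℝ) p, ← Real.rpow_mul hm0.le]
      apply Real.rpow_le_rpow_of_exponent_le hm1
      nlinarith
    calc ((m:ℝ) ^ (2 * p))⁻¹ * ∫ y in c..d, ‖∑ n ∈ Finset.Ico n0 (m ^ p), e (Ψ n y)‖ ^ 2
        ≤ ((m:ℝ) ^ (2 * p))⁻¹ * (C * ((m:ℝ) ^ (2 * p) * (1 / (m:ℝ) ^ 2))) := by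
          apply mul_le_mul_of_nonneg_left _ (by positivity)
          exact h1.trans (mul_le_mul_of_nonneg_left e3 hC0)
      _ = _ := by
          have : (0:ℝ) < (m:ℝ) ^ (2 * p) := by positivity
          field_simp

variable {r k : ℕ}

/-- the frequency vectors whose moments up to the degree `D j` vanish in all the groups -/
def Wp (h : Fin r → ℝ) (s : Fin r → Fin k) (D : Fin k → ℕ) (a : Fin r → ℕ →₀ ℤ) : Prop :=
  ∀ j, ∀ l < D j, ∑ i ∈ Finset.univ.filter (fun i => s i = j), frq (a i) * h i ^ l = 0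

/-- Weyl sums for several exponents -/
theorem weyl_k' {x : ℕ → ℝ} {δ τ G : ℝ} (hx : Sx x δ τ G) (h : Fin r → ℝ) (s : Fin r → Fin k) (D : Fin k → ℕ)
    (a : Fin r → ℕ →₀ ℤ) (ha : ¬ Wp h s D a) :
    ∀ᵐ c : Fin k → ℝ, (∀ j, (D j : ℝ) < c j + τ) →
      Tendsto (fun N : ℕ => (∑ n ∈ Finset.range N, e (∑ i, frq (a i) * (x n + h i) ^ (c (s i)))) / (N:ℂ)) atTop (𝓝 0) := by
  unfold Wp at ha
  push Not at ha
  obtain ⟨j, l, hl, hne⟩ := ha
  set S := Finset.univ.filter fun i => s i = j with hS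
  have key : ∀ᵐ c : Fin k → ℝ, (D j : ℝ) - τ < c j → Tendsto (fun N : ℕ =>
      (∑ n ∈ Finset.range N, e (∑ i, frq (a i) * (x n + h i) ^ (c (s i)))) / (N:ℂ)) atTop (𝓝 0) := by
    apply ae_slice j
    · have hm1 : MeasurableSet {c : Fin k → ℝ | (D j : ℝ) - τ < c j} :=
        measurableSet_lt measurable_const (measurable_pi_apply j)
      have hm2 : MeasurableSet {c : Fin k → ℝ | Tendsto (fun N : ℕ =>
          (∑ n ∈ Finset.range N, e (∑ i, frq (a i) * (x n + h i) ^ (c (s i)))) / (N:ℂ)) atTop (𝓝 0)} := by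
        refine measurableSet_tendsto_fun (f := fun (N : ℕ) (c : Fin k → ℝ) =>
          (∑ n ∈ Finset.range N, e (∑ i, frq (a i) * (x n + h i) ^ (c (s i)))) / (N:ℂ)) (fun N => ?_) measurable_const
        refine Measurable.div_const (Finset.measurable_sum _ fun n _ => ?_) _
        refine e_continuous.measurable.comp (Finset.measurable_sum _ fun i _ => ?_)
        exact (measurable_const.pow (measurable_pi_apply (s i))).const_mul _
      have : {c : Fin k → ℝ | (D j : ℝ) - τ < c j → Tendsto (fun N : ℕ =>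
          (∑ n ∈ Finset.range N, e (∑ i, frq (a i) * (x n + h i) ^ (c (s i)))) / (N:ℂ)) atTop (𝓝 0)} =
          {c : Fin k → ℝ | (D j : ℝ) - τ < c j}ᶜ ∪ {c : Fin k → ℝ | Tendsto (fun N : ℕ =>
          (∑ n ∈ Finset.range N, e (∑ i, frq (a i) * (x n + h i) ^ (c (s i)))) / (N:ℂ)) atTop (𝓝 0)} := by
        ext c
        simp only [mem_ofPred_eq, mem_union, mem_compl_iff]
        exact imp_iff_not_or
      rw [this]
      exact hm1.compl.union hm2
    · intro c
      have hgt : ∀ᵐ y : ℝ, (D j : ℝ) - τ < y → Tendsto (fun N : ℕ =>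
        (∑ n ∈ Finset.range N, e (∑ i ∈ S, frq (a i) * (x n + h i) ^ y +
          ∑ i ∈ Finset.univ.filter (fun i => ¬ s i = j), frq (a i) * (x n + h i) ^ (c (s i)))) / (N:ℂ)) atTop (𝓝 0) :=
        ae_gt _ fun _ _ hc hcd => weyl_Icc' hx S h (fun i => frq (a i)) ⟨l, hl, hne⟩ (by linarith) hcd.le _
      filter_upwards [hgt] with y hy hlt
      rw [Function.update_self] at hlt
      refine (hy hlt).congr fun N => ?_
      congr 1
      apply Finset.sum_congr rfl
      intro n _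
      congr 1
      rw [← Finset.sum_filter_add_sum_filter_not Finset.univ (fun i => s i = j)
        (fun i => frq (a i) * (x n + h i) ^ (Function.update c j y (s i)))]
      congr 1
      · apply Finset.sum_congr rfl
        intro i hi
        rw [(Finset.mem_filter.mp hi).2, Function.update_self]
      · apply Finset.sum_congr rfl
        intro i hi
        rw [Function.update_of_ne (Finset.mem_filter.mp hi).2]
  filter_upwards [key] with c hc hall
  apply hc
  have := hall j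
  linarith

/-- vanishing moments: the phase tends to zero -/
lemma phase_zero {ι : Type*} (S : Finset ι) (h : ι → ℝ) (ω : ι → ℝ) {D : ℕ} (hD : 1 ≤ D)
    (hz : ∀ l < D, ∑ i ∈ S, ω i * h i ^ l = 0) {c : ℝ} (hc : c < D) :
    Tendsto (fun t : ℝ => ∑ i ∈ S, ω i * (t + h i) ^ c) atTop (𝓝 0) := by
  obtain ⟨C, hC, hup⟩ := fam_up D |c| 1 (abs_nonneg _) zero_le_one
  set Q : ℝ := ∑ i ∈ S, |ω i| * |h i| ^ D with hQ
  have hQ0 : 0 ≤ Q := by positivity
  set A : ℝ := Q * (C * (2 ^ (|c| + D) * 4)) with hA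
  have hA0 : 0 ≤ A := by positivity
  have hlim : Tendsto (fun t : ℝ => A * (t ^ (c - D) * Real.log t ^ 2)) atTop (𝓝 0) := by
    set s : ℝ := (D - c) / 2 with hs
    have hs0 : 0 < s := by rw [hs]; linarith
    have h1 := ((isLittleO_log_rpow_atTop hs0).tendsto_div_nhds_zero.pow 2).const_mul A
    simp only [ne_eq, OfNat.ofNat_ne_zero, not_false_eq_true, zero_pow, mul_zero] at h1
    refine h1.congr' ?_
    filter_upwards [eventually_gt_atTop 0] with t ht
    have e1 : t ^ (c - D) = (t ^ s)⁻¹ ^ 2 := by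
      rw [← Real.rpow_neg ht.le, ← Real.rpow_natCast, ← Real.rpow_mul ht.le]
      congr 1
      rw [hs]
      push_cast
      ring
    rw [e1, div_pow, inv_pow]
    ring
  refine squeeze_zero_norm' ?_ hlim
  have hbig : ∀ᶠ t : ℝ in atTop, ∀ i ∈ S, |h i| ≤ t / 2 := by
    rw [Finset.eventually_all]
    intro i _
    filter_upwards [eventually_ge_atTop (2 * |h i|)] with t ht
    linarith
  filter_upwards [eventually_ge_atTop 6, hbig] with t ht hh
  set f : ℕ → ℝ → ℝ := fun l v => ∑ i ∈ S, ω i * h i ^ l * fam l c 0 0 1 (t + v * h i) with hf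
  have hsh : ∀ v ∈ Icc (0:ℝ) 1, ∀ i ∈ S, |v * h i| ≤ t / 2 := by
    intro v hv i hi
    rw [abs_mul, abs_of_nonneg hv.1]
    exact (mul_le_of_le_one_left (abs_nonneg _) hv.2).trans (hh i hi)
  have hpos : ∀ v ∈ Icc (0:ℝ) 1, ∀ i ∈ S, 3 ≤ t + v * h i := by
    intro v hv i hi
    have := (abs_le.mp (hsh v hv i hi)).1
    linarith
  have hzf : ∀ l < D, f l 0 = 0 := by
    intro l hl
    simp only [hf, zero_mul, add_zero]
    rw [← Finset.sum_mul, hz l hl, zero_mul]
  have h1 := taylor_crude (f := f) (i0 := D - 1) (B := A * (t ^ (c - D) * Real.log t ^ 2)) ?_ ?_ ?_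
  · rw [hzf (D - 1) (by omega), zero_div, sub_zero] at h1
    have e1 : f 0 1 = ∑ i ∈ S, ω i * (t + h i) ^ c := by
      simp only [hf]
      apply Finset.sum_congr rfl
      intro i _
      show ω i * h i ^ 0 * ((t + 1 * h i) ^ c * (0 * Real.log (t + 1 * h i) ^ 2 + 0 * Real.log (t + 1 * h i) + 1)) = _
      rw [pow_zero, one_mul]
      ring
    rw [e1] at h1
    exact h1
  · intro l v hv
    simp only [hf]
    have hd : ∀ i ∈ S, HasDerivAt (fun v : ℝ => ω i * h i ^ l * fam l c 0 0 1 (t + v * h i))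
        (ω i * h i ^ (l + 1) * fam (l + 1) c 0 0 1 (t + v * h i)) v := by
      intro i hi
      have g1 := fam_deriv l c 0 0 1 (t := t + v * h i) (by linarith [hpos v hv i hi])
      have g2 : HasDerivAt (fun v : ℝ => t + v * h i) (h i) v := by
        simpa using ((hasDerivAt_id v).mul_const (h i)).const_add t
      have g3 := (g1.comp v g2).const_mul (ω i * h i ^ l)
      refine g3.congr_deriv ?_
      rw [pow_succ]
      ring
    exact HasDerivAt.fun_sum hd
  · intro l hl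
    exact hzf l (by omega)
  · intro v hv
    have e2 : D - 1 + 1 = D := by omega
    rw [e2]
    simp only [hf]
    refine (Finset.abs_sum_le_sum_abs _ _).trans ?_
    rw [hA, hQ, Finset.sum_mul, Finset.sum_mul]
    apply Finset.sum_le_sum
    intro i hi
    rw [abs_mul, abs_mul, abs_pow, mul_assoc (|ω i| * |h i| ^ D)]
    apply mul_le_mul_of_nonneg_left _ (by positivity)
    have h3 := hpos v hv i hi
    have h4 := hup c 0 0 1 le_rfl (by simp) (by simp) (by simp) (t + v * h i) h3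
    refine h4.trans ?_
    have h5 : (t + v * h i) ^ (c - D) ≤ 2 ^ (|c| + D) * t ^ (c - D) :=
      rpow_half (by linarith) (hsh v hv i hi) (by
        have := abs_sub c (D:ℝ)
        rwa [abs_of_nonneg (Nat.cast_nonneg D : (0:ℝ) ≤ D)] at this)
    have h6 : Real.log (t + v * h i) ≤ 2 * Real.log t := log_shift_le (by linarith) (hsh v hv i hi)
    have h7 : 0 ≤ Real.log (t + v * h i) := Real.log_nonneg (by linarith)
    have h8 : Real.log (t + v * h i) ^ 2 ≤ 4 * Real.log t ^ 2 := by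
      calc Real.log (t + v * h i) ^ 2 ≤ (2 * Real.log t) ^ 2 := pow_le_pow_left₀ h7 h6 2
        _ = _ := by ring
    calc C * ((t + v * h i) ^ (c - D) * Real.log (t + v * h i) ^ 2)
        ≤ C * ((2 ^ (|c| + D) * t ^ (c - D)) * (4 * Real.log t ^ 2)) := by gcongr
      _ = _ := by ring

end

end Pool.Agent.H382.RP
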