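import Mathlib
import Pool.Graph.R_pool_sql_team_seeded_3dad9d7b.NH20.NC.Nr

/-!
# Sequences of random vectors of radii with the same asymptotic characters

If the averages of all characters `e(∑ ω_i R_i)`, `ω_i` integral combinations of square roots of
integers, converge to the indicator function of a set `W` of frequency vectors, and if the error term
is approximated in mean square by its model polynomials, then the error terms have a joint limit law
which depends on `W` only.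
-/

set_option autoImplicit false

open MeasureTheory Filter Topology Set
open scoped ENNReal RealInnerProductSpace
open Pool.Agent.H469R2.NK (e norm_e e_add conj_e e_zero)
open Pool.Agent.H383.Gen (U Bd)
open Pool.Agent.Y969.TM
open Pool.Agent.R306.GP

namespace Pool.Agent.H382.RP

noncomputable section

/-- the frequencies: integral combinations of square roots -/
def frq (a : ℕ →₀ ℤ) : ℝ := a.sum fun m z => (z : ℝ) * √(m : ℝ)

lemma frq_zero : frq 0 = 0 := Finsupp.sum_zero_index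

lemma frq_add (a b : ℕ →₀ ℤ) : frq (a + b) = frq a + frq b :=
  Finsupp.sum_add_index' (by simp) (by intros; push_cast; ring)

lemma frq_single (m : ℕ) (z : ℤ) : frq (Finsupp.single m z) = z * √(m : ℝ) :=
  Finsupp.sum_single_index (by simp)

lemma frq_sum {ι : Type*} (s : Finset ι) (f : ι → ℕ →₀ ℤ) : frq (∑ i ∈ s, f i) = ∑ i ∈ s, frq (f i) := by
  classical
  induction s using Finset.induction_on with
  | empty => simp [frq_zero]
  | insert a s ha ih => rw [Finset.sum_insert ha, Finset.sum_insert ha, frq_add, ih]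

variable {r : ℕ}

/-- the characters -/
def chi (a : Fin r → ℕ →₀ ℤ) (R : Fin r → ℝ) : ℂ := e (∑ i, frq (a i) * R i)

lemma chi_zero (R : Fin r → ℝ) : chi 0 R = 1 := by
  unfold chi
  simp [frq_zero, e_zero]

lemma chi_add (a b : Fin r → ℕ →₀ ℤ) (R : Fin r → ℝ) : chi (a + b) R = chi a R * chi b R := by
  unfold chi
  rw [← e_add, ← Finset.sum_add_distrib]
  congr 1
  apply Finset.sum_congr rfl
  intro i _
  rw [Pi.add_apply, frq_add, add_mul]

lemma chi_sum {ι : Type*} (s : Finset ι) (f : ι → Fin r → ℕ →₀ ℤ) (R : Fin r → ℝ) :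
    chi (∑ i ∈ s, f i) R = ∏ i ∈ s, chi (f i) R := by
  classical
  induction s using Finset.induction_on with
  | empty => simp [chi_zero]
  | insert a s ha ih => rw [Finset.sum_insert ha, Finset.prod_insert ha, chi_add, ih]

lemma norm_chi (a : Fin r → ℕ →₀ ℤ) (R : Fin r → ℝ) : ‖chi a R‖ = 1 := norm_e _

lemma chi_cont (a : Fin r → ℕ →₀ ℤ) : Continuous (chi a) := by
  unfold chi
  exact e_continuous.comp (by fun_prop)

lemma chi_int (a : Fin r → ℕ →₀ ℤ) (ρ : Measure (Fin r → ℝ)) [IsProbabilityMeasure ρ] :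
    Integrable (chi a) ρ :=
  Integrable.of_bound (chi_cont a).aestronglyMeasurable 1 (Eventually.of_forall fun R => (norm_chi a R).le)

open Classical in
/-- a sequence of random vectors of radii with the asymptotic characters given by `W`, for which the
model polynomials approximate `E` -/
structure Sys (E : ℝ → ℝ) (af : ℕ → ℝ) (φ : ℝ) (W : (Fin r → ℕ →₀ ℤ) → Prop)
    (ρ : ℕ → Measure (Fin r → ℝ)) : Prop where
  prob : ∀ n, IsProbabilityMeasure (ρ n)
  char : ∀ a, Tendsto (fun n => ∫ R, chi a R ∂(ρ n)) atTop (𝓝 (if W a then 1 else 0))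
  apx : ∀ (i : Fin r) (ε : ℝ), 0 < ε → ∀ᶠ K : ℕ in atTop, ∀ᶠ n : ℕ in atTop,
    ∫⁻ R, ENNReal.ofReal ((E (R i) - U af φ (R i) K) ^ 2) ∂(ρ n) ≤ ENNReal.ofReal ε

/-- convergence from approximation -/
lemma conv_of_approx {Ω : Type*} [MeasurableSpace Ω] {S : (ℕ → Measure Ω) → Prop} {ρ0 : ℕ → Measure Ω}
    (h0 : S ρ0) (F : Ω → ℂ) (L : ℕ → ℂ)
    (h : ∀ ρ, S ρ → ∀ ε : ℝ, 0 < ε → ∀ᶠ K : ℕ in atTop, ∀ᶠ n : ℕ in atTop, ‖∫ x, F x ∂(ρ n) - L K‖ ≤ ε) :
    ∃ l : ℂ, ∀ ρ, S ρ → Tendsto (fun n => ∫ x, F x ∂(ρ n)) atTop (𝓝 l) := by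
  have hC : CauchySeq L := by
    rw [Metric.cauchySeq_iff]
    intro ε hε
    obtain ⟨K0, hK0⟩ := eventually_atTop.mp (h ρ0 h0 (ε / 3) (by positivity))
    refine ⟨K0, fun m hm n hn => ?_⟩
    obtain ⟨k, h1, h2⟩ := ((hK0 m hm).and (hK0 n hn)).exists
    rw [dist_eq_norm]
    have e1 : L m - L n = (∫ x, F x ∂(ρ0 k) - L n) - (∫ x, F x ∂(ρ0 k) - L m) := by ring
    rw [e1]
    refine lt_of_le_of_lt (norm_sub_le _ _) ?_
    linarith
  obtain ⟨l, hl⟩ := cauchySeq_tendsto_of_complete hC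
  refine ⟨l, fun ρ hρ => ?_⟩
  rw [Metric.tendsto_nhds]
  intro ε hε
  obtain ⟨K, h1, h2⟩ := ((h ρ hρ (ε / 3) (by positivity)).and
    ((Metric.tendsto_nhds.mp hl) (ε / 3) (by positivity))).exists
  filter_upwards [h1] with n hn
  rw [dist_eq_norm] at h2 ⊢
  have e1 : ∫ x, F x ∂(ρ n) - l = (∫ x, F x ∂(ρ n) - L K) + (L K - l) := by ring
  rw [e1]
  refine lt_of_le_of_lt (norm_add_le _ _) ?_
  linarith

variable {E : ℝ → ℝ} {af : ℕ → ℝ} {φ : ℝ} {W : (Fin r → ℕ →₀ ℤ) → Prop} {ρ : ℕ → Measure (Fin r → ℝ)}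

/-- the exponents in the expansion of the model polynomials -/
def ax (u : Fin r × (ℕ × Bool)) : Fin r → ℕ →₀ ℤ := Pi.single u.1 (Finsupp.single u.2.1 (sb u.2.2))

lemma chi_ax (u : Fin r × (ℕ × Bool)) (R : Fin r → ℝ) : chi (ax u) R = e (R u.1 * fq u.2) := by
  unfold chi ax
  congr 1
  rw [Finset.sum_eq_single u.1]
  · rw [Pi.single_eq_same, frq_single]
    unfold fq
    ring
  · intro i _ hi
    rw [Pi.single_eq_of_ne hi, frq_zero, zero_mul]
  · intro h
    exact absurd (Finset.mem_univ _) h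

/-- linear forms in the model polynomials -/
def lin (af : ℕ → ℝ) (φ : ℝ) (t : Fin r → ℝ) (K : ℕ) (R : Fin r → ℝ) : ℝ := ∑ i, t i * U af φ (R i) K

/-- the coefficients -/
def cx (af : ℕ → ℝ) (φ : ℝ) (t : Fin r → ℝ) (u : Fin r × (ℕ × Bool)) : ℂ := (t u.1 : ℂ) * cf af φ u.2

lemma lin_exp (af : ℕ → ℝ) (φ : ℝ) (t : Fin r → ℝ) (K : ℕ) (R : Fin r → ℝ) :
    ((lin af φ t K R : ℝ) : ℂ) = ∑ u ∈ (Finset.univ : Finset (Fin r)) ×ˢ JS K, cx af φ t u * chi (ax u) R := by
  unfold lin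
  rw [Finset.sum_product]
  push_cast
  apply Finset.sum_congr rfl
  intro i _
  rw [U_exp, Finset.mul_sum]
  apply Finset.sum_congr rfl
  intro y _
  rw [chi_ax]
  unfold cx
  ring

lemma lin_pow (af : ℕ → ℝ) (φ : ℝ) (t : Fin r → ℝ) (K p : ℕ) (R : Fin r → ℝ) :
    ((lin af φ t K R : ℝ) : ℂ) ^ p =
      ∑ v ∈ Fintype.piFinset (fun _ : Fin p => (Finset.univ : Finset (Fin r)) ×ˢ JS K),
        (∏ l, cx af φ t (v l)) * chi (∑ l, ax (v l)) R := by
  rw [lin_exp, Finset.sum_pow']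
  apply Finset.sum_congr rfl
  intro v _
  rw [Finset.prod_mul_distrib, chi_sum]

lemma lin_bd (af : ℕ → ℝ) (φ : ℝ) (t : Fin r → ℝ) (K : ℕ) (R : Fin r → ℝ) :
    |lin af φ t K R| ≤ ∑ i, |t i| * AA af K := by
  unfold lin
  refine (Finset.abs_sum_le_sum_abs _ _).trans (Finset.sum_le_sum fun i _ => ?_)
  rw [abs_mul]
  exact mul_le_mul_of_nonneg_left (by
    unfold U AA
    refine (Finset.abs_sum_le_sum_abs _ _).trans (Finset.sum_le_sum fun m _ => ?_)
    rw [abs_mul]
    exact mul_le_of_le_one_right (abs_nonneg _) (Real.abs_cos_le_one _)) (abs_nonneg _)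

lemma lin_cont (af : ℕ → ℝ) (φ : ℝ) (t : Fin r → ℝ) (K : ℕ) : Continuous (lin af φ t K) := by
  unfold lin
  exact continuous_finsetSum _ fun i _ => continuous_const.mul ((U_cont af φ K).comp (continuous_apply i))

open Classical in
/-- the limits of the powers -/
def LP (W : (Fin r → ℕ →₀ ℤ) → Prop) (af : ℕ → ℝ) (φ : ℝ) (t : Fin r → ℝ) (K p : ℕ) : ℂ :=
  ∑ v ∈ Fintype.piFinset (fun _ : Fin p => (Finset.univ : Finset (Fin r)) ×ˢ JS K),
    (∏ l, cx af φ t (v l)) * (if W (∑ l, ax (v l)) then 1 else 0)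

lemma Sys.pow (h : Sys E af φ W ρ) (t : Fin r → ℝ) (K p : ℕ) :
    Tendsto (fun n => ∫ R, ((lin af φ t K R : ℝ) : ℂ) ^ p ∂(ρ n)) atTop (𝓝 (LP W af φ t K p)) := by
  classical
  have h1 : ∀ n, ∫ R, ((lin af φ t K R : ℝ) : ℂ) ^ p ∂(ρ n) =
      ∑ v ∈ Fintype.piFinset (fun _ : Fin p => (Finset.univ : Finset (Fin r)) ×ˢ JS K),
        (∏ l, cx af φ t (v l)) * ∫ R, chi (∑ l, ax (v l)) R ∂(ρ n) := by
    intro n
    have := h.prob n
    simp only [lin_pow]
    rw [integral_finsetSum _ (fun v _ => (chi_int _ _).const_mul _)]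
    simp only [integral_const_mul]
  simp only [h1]
  unfold LP
  exact tendsto_finsetSum _ fun v _ => (h.char _).const_mul _

/-- the limits of the exponential functions of the model polynomials -/
lemma exp_lin (h0 : Sys E af φ W ρ) (t : Fin r → ℝ) (K : ℕ) :
    ∃ l : ℂ, ∀ ρ' : ℕ → Measure (Fin r → ℝ), Sys E af φ W ρ' →
      Tendsto (fun n => ∫ R, Complex.exp (Complex.I * (lin af φ t K R : ℝ)) ∂(ρ' n)) atTop (𝓝 l) := by
  set B : ℝ := ∑ i, |t i| * AA af K with hB
  have hB0 : 0 ≤ B := Finset.sum_nonneg fun i _ => mul_nonneg (abs_nonneg _) (AA_nonneg _ _)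
  refine conv_of_approx (S := fun ρ' => Sys E af φ W ρ') h0 _
    (fun P => ∑ q ∈ Finset.range P, Complex.I ^ q / (q.factorial : ℂ) * LP W af φ t K q) ?_
  intro ρ' hρ' ε hε
  have e1 : ∀ᶠ P : ℕ in atTop, B ^ P / (P.factorial : ℝ) * 2 < ε / 2 := by
    have := (FloorSemiring.tendsto_pow_div_factorial_atTop B).mul_const 2
    rw [zero_mul] at this
    exact this.eventually (gt_mem_nhds (by positivity))
  obtain ⟨P0, hP0⟩ := exists_nat_ge (2 * B)
  filter_upwards [e1, eventually_ge_atTop P0] with P h1 h2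
  have h3 : Tendsto (fun n => ∑ q ∈ Finset.range P, Complex.I ^ q / (q.factorial : ℂ) *
      ∫ R, ((lin af φ t K R : ℝ) : ℂ) ^ q ∂(ρ' n)) atTop
      (𝓝 (∑ q ∈ Finset.range P, Complex.I ^ q / (q.factorial : ℂ) * LP W af φ t K q)) :=
    tendsto_finsetSum _ fun q _ => (hρ'.pow t K q).const_mul _
  filter_upwards [(Metric.tendsto_nhds.mp h3) (ε / 2) (by positivity)] with n hn
  have := hρ'.prob n
  rw [dist_eq_norm] at hn
  have hint : ∀ q : ℕ, Integrable (fun R => Complex.I ^ q / (q.factorial : ℂ) * ((lin af φ t K R : ℝ) : ℂ) ^ q) (ρ' n) := by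
    intro q
    apply Integrable.const_mul
    refine Integrable.of_bound ((Complex.continuous_ofReal.comp (lin_cont af φ t K)).pow q).aestronglyMeasurable (B ^ q)
      (Eventually.of_forall fun R => ?_)
    rw [norm_pow, Complex.norm_real, Real.norm_eq_abs]
    exact pow_le_pow_left₀ (abs_nonneg _) (lin_bd af φ t K R) q
  have hint2 : Integrable (fun R => Complex.exp (Complex.I * (lin af φ t K R : ℝ))) (ρ' n) := by
    refine Integrable.of_bound (Complex.continuous_exp.comp (continuous_const.mul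
      (Complex.continuous_ofReal.comp (lin_cont af φ t K)))).aestronglyMeasurable 1 (Eventually.of_forall fun R => ?_)
    rw [mul_comm, Complex.norm_exp_ofReal_mul_I]
  have h4 : ‖∫ R, Complex.exp (Complex.I * (lin af φ t K R : ℝ)) ∂(ρ' n) -
      ∑ q ∈ Finset.range P, Complex.I ^ q / (q.factorial : ℂ) * ∫ R, ((lin af φ t K R : ℝ) : ℂ) ^ q ∂(ρ' n)‖ ≤ ε / 2 := by
    have h5 : ∑ q ∈ Finset.range P, Complex.I ^ q / (q.factorial : ℂ) * ∫ R, ((lin af φ t K R : ℝ) : ℂ) ^ q ∂(ρ' n) =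
        ∫ R, ∑ q ∈ Finset.range P, Complex.I ^ q / (q.factorial : ℂ) * ((lin af φ t K R : ℝ) : ℂ) ^ q ∂(ρ' n) := by
      rw [integral_finsetSum _ (fun q _ => hint q)]
      simp only [integral_const_mul]
    rw [h5, ← integral_sub hint2 (integrable_finsetSum _ fun q _ => hint q)]
    refine (norm_integral_le_of_norm_le_const (C := ε / 2) (Eventually.of_forall fun R => ?_)).trans ?_
    · have h6 : ‖Complex.I * ((lin af φ t K R : ℝ) : ℂ)‖ ≤ B := by
        rw [norm_mul, Complex.norm_I, one_mul, Complex.norm_real, Real.norm_eq_abs]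
        exact lin_bd af φ t K R
      have h7 : ‖Complex.I * ((lin af φ t K R : ℝ) : ℂ)‖ / (P.succ : ℝ) ≤ 1 / 2 := by
        have hP : (P0 : ℝ) ≤ P := by exact_mod_cast h2
        rw [div_le_iff₀ (by positivity)]
        push_cast
        linarith
      have h8 := Complex.exp_bound' h7
      have h9 : ∑ m ∈ Finset.range P, (Complex.I * ((lin af φ t K R : ℝ) : ℂ)) ^ m / (m.factorial : ℂ) =
          ∑ q ∈ Finset.range P, Complex.I ^ q / (q.factorial : ℂ) * ((lin af φ t K R : ℝ) : ℂ) ^ q := by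
        apply Finset.sum_congr rfl
        intro q _
        rw [mul_pow]
        ring
      rw [h9] at h8
      refine h8.trans ?_
      have h10 : ‖Complex.I * ((lin af φ t K R : ℝ) : ℂ)‖ ^ P / (P.factorial : ℝ) * 2 ≤ B ^ P / (P.factorial : ℝ) * 2 := by
        gcongr
      linarith
    · simp
  calc ‖∫ R, Complex.exp (Complex.I * (lin af φ t K R : ℝ)) ∂(ρ' n) -
        ∑ q ∈ Finset.range P, Complex.I ^ q / (q.factorial : ℂ) * LP W af φ t K q‖
      ≤ ‖∫ R, Complex.exp (Complex.I * (lin af φ t K R : ℝ)) ∂(ρ' n) -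
      ∑ q ∈ Finset.range P, Complex.I ^ q / (q.factorial : ℂ) * ∫ R, ((lin af φ t K R : ℝ) : ℂ) ^ q ∂(ρ' n)‖ +
        ‖∑ q ∈ Finset.range P, Complex.I ^ q / (q.factorial : ℂ) * ∫ R, ((lin af φ t K R : ℝ) : ℂ) ^ q ∂(ρ' n) -
        ∑ q ∈ Finset.range P, Complex.I ^ q / (q.factorial : ℂ) * LP W af φ t K q‖ := norm_sub_le_norm_sub_add_norm_sub _ _ _
    _ ≤ ε / 2 + ε / 2 := add_le_add h4 hn.le
    _ = ε := by ring

end

end Pool.Agent.H382.RP
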